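import Mathlib

/-!
Affine emptiness of a system of fat points over an arbitrary field (helper file only).
-/

namespace Pool.Agent.P.MP_8707bd_ag.All

open MvPolynomial

/-- No nonzero polynomial of degree `< d` vanishes to order `μ i` at the point `P i`. -/
def Emp {K : Type} [Field K] {ι : Type} (P : ι → Fin 2 → K) (μ : ι → ℕ) (d : ℕ) : Prop :=
  ∀ F : MvPolynomial (Fin 2) K, F.totalDegree < d →
    (∀ i, F ∈ RingHom.ker (MvPolynomial.eval (P i)) ^ μ i) → F = 0

/-- Translation of the variables. -/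
noncomputable def tr {σ R : Type} [CommRing R] (P : σ → R) :
    MvPolynomial σ R →ₐ[R] MvPolynomial σ R :=
  MvPolynomial.aeval fun k => X k + C (P k)

lemma tr_tr {σ R : Type} [CommRing R] (P Q : σ → R) (F : MvPolynomial σ R) :
    tr P (tr Q F) = tr (P + Q) F := by
  have : (tr P).comp (tr Q) = tr (P + Q) := by
    ext1 k
    simp [tr, add_assoc]
  exact congrArg (fun f : MvPolynomial σ R →ₐ[R] MvPolynomial σ R => f F) this

lemma tr_zero {σ R : Type} [CommRing R] (F : MvPolynomial σ R) : tr (0 : σ → R) F = F := by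
  have : tr (0 : σ → R) = AlgHom.id R _ := by
    ext1 k
    simp [tr]
  rw [this]; rfl

lemma eval_tr {σ R : Type} [CommRing R] (P Q : σ → R) (F : MvPolynomial σ R) :
    eval Q (tr P F) = eval (Q + P) F := by
  have : (eval Q).comp (tr P : MvPolynomial σ R →+* MvPolynomial σ R) = eval (Q + P) := by
    ext1
    · ext r; simp [tr]
    · simp [tr]
  exact congrArg (fun f : MvPolynomial σ R →+* R => f F) this

lemma pow_map_mem {A B : Type} [CommRing A] [CommRing B] (f : A →+* B) (I : Ideal A) (J : Ideal B)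
    (h : ∀ a ∈ I, f a ∈ J) (n : ℕ) (a : A) (ha : a ∈ I ^ n) : f a ∈ J ^ n := by
  have h1 : Ideal.map f I ≤ J := Ideal.map_le_iff_le_comap.2 h
  have h2 := Ideal.mem_map_of_mem f ha
  rw [Ideal.map_pow] at h2
  exact Ideal.pow_right_mono h1 n h2

lemma mem_vars_iff {σ R : Type} [CommRing R] (F : MvPolynomial σ R) :
    F ∈ idealOfVars σ R ↔ eval 0 F = 0 := by
  have h := mem_pow_idealOfVars_iff' (σ := σ) (R := R) 1 F
  rw [pow_one] at h
  rw [h, eval_zero]
  constructor
  · intro h1
    exact h1 0 (by simp)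
  · intro h1 x hx
    have : x = 0 := by
      rw [← Finsupp.degree_eq_zero_iff]; omega
    rw [this]
    exact h1

/-- Vanishing to order `n` at `P` in terms of Taylor coefficients. -/
lemma van_iff {σ R : Type} [CommRing R] (P : σ → R) (n : ℕ) (F : MvPolynomial σ R) :
    F ∈ RingHom.ker (eval P) ^ n ↔ ∀ s : σ →₀ ℕ, s.degree < n → (tr P F).coeff s = 0 := by
  rw [← mem_pow_idealOfVars_iff']
  constructor
  · refine pow_map_mem (tr P : MvPolynomial σ R →+* MvPolynomial σ R) _ _ (fun a ha => ?_) n F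
    rw [mem_vars_iff]
    change eval 0 (tr P a) = 0
    rw [eval_tr, zero_add]
    exact ha
  · intro h
    have h1 := pow_map_mem (tr (-P) : MvPolynomial σ R →+* MvPolynomial σ R) _
      (RingHom.ker (eval P)) (fun a ha => by
        rw [mem_vars_iff] at ha
        change eval P (tr (-P) a) = 0
        rw [eval_tr, add_neg_cancel]
        exact ha) n _ h
    change tr (-P) (tr P F) ∈ _ at h1
    rwa [tr_tr, neg_add_cancel, tr_zero] at h1

lemma Emp.reindex {K : Type} [Field K] {ι κ : Type} {P : ι → Fin 2 → K} {μ : ι → ℕ} {d : ℕ}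
    (h : Emp P μ d) (e : κ ≃ ι) : Emp (fun a => P (e a)) (fun a => μ (e a)) d :=
  fun F h1 h2 => h F h1 fun i => by simpa using h2 (e.symm i)

end Pool.Agent.P.MP_8707bd_ag.All
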