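import Mathlib
import Pool.Agent.P.MP_8707bd_ag.All.Defs

/-!
Gluing lemma: a fat point may be replaced by a cluster of fat points that imposes the same
vanishing order (helper file only).
-/

namespace Pool.Agent.P.MP_8707bd_ag.All

open MvPolynomial

namespace Glue

variable {K : Type} [Field K]

/-- The coefficient of `t ^ g` of a polynomial over the series field. -/
noncomputable def cf (g : ℤ) (F : MvPolynomial (Fin 2) (HahnSeries ℤ K)) :
    MvPolynomial (Fin 2) K :=
  ∑ s ∈ F.support, monomial s ((F.coeff s).coeff g)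

lemma coeff_cf (g : ℤ) (F : MvPolynomial (Fin 2) (HahnSeries ℤ K)) (s : Fin 2 →₀ ℕ) :
    (cf g F).coeff s = (F.coeff s).coeff g := by
  classical
  rw [cf, coeff_sum]
  simp only [coeff_monomial]
  rw [Finset.sum_ite_eq']
  split_ifs with h
  · rfl
  · rw [notMem_support_iff.mp h]
    rfl

lemma cf_add (g : ℤ) (F G : MvPolynomial (Fin 2) (HahnSeries ℤ K)) :
    cf g (F + G) = cf g F + cf g G := by
  ext s
  simp [coeff_cf]

lemma cf_C_mul (g : ℤ) (c : HahnSeries ℤ K) (f : MvPolynomial (Fin 2) K) :
    cf g (C c * map (HahnSeries.C : K →+* HahnSeries ℤ K) f) = C (c.coeff g) * f := by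
  ext s
  rw [coeff_cf, coeff_C_mul, coeff_C_mul, coeff_map, HahnSeries.C_apply,
    HahnSeries.coeff_mul_single_zero]

lemma tr_map (q : Fin 2 → K) (f : MvPolynomial (Fin 2) K) :
    tr (fun k => (HahnSeries.C (q k) : HahnSeries ℤ K))
      (map (HahnSeries.C : K →+* HahnSeries ℤ K) f) =
      map (HahnSeries.C : K →+* HahnSeries ℤ K) (tr q f) := by
  induction f using MvPolynomial.induction_on with
  | C a => simp [tr]
  | add f g hf hg => simp only [map_add, hf, hg]
  | mul_X f k hf =>
    simp only [map_mul, hf]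
    simp [tr]

lemma cf_tr (g : ℤ) (q : Fin 2 → K) (F : MvPolynomial (Fin 2) (HahnSeries ℤ K)) :
    cf g (tr (fun k => (HahnSeries.C (q k) : HahnSeries ℤ K)) F) = tr q (cf g F) := by
  induction F using MvPolynomial.induction_on' with
  | monomial s c =>
    have h1 : (monomial s c : MvPolynomial (Fin 2) (HahnSeries ℤ K)) =
        C c * map (HahnSeries.C : K →+* HahnSeries ℤ K) (monomial s 1) := by
      rw [map_monomial, map_one, C_mul_monomial, mul_one]
    have h2 : ∀ (x : HahnSeries ℤ K) (r : Fin 2 → HahnSeries ℤ K), tr r (C x) = C x := by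
      intro x r
      simp [tr]
    have h3 : ∀ (x : K) (r : Fin 2 → K), tr r (C x) = C x := by
      intro x r
      simp [tr]
    rw [h1, map_mul, h2, tr_map, cf_C_mul, cf_C_mul, map_mul, h3]
  | add F G hF hG => rw [map_add, cf_add, cf_add, map_add, hF, hG]

/-- Scaling of the variables. -/
noncomputable def sc {R : Type} [CommRing R] (t : R) :
    MvPolynomial (Fin 2) R →ₐ[R] MvPolynomial (Fin 2) R :=
  aeval fun k => C t * X k

lemma sc_monomial {R : Type} [CommRing R] (t c : R) (s : Fin 2 →₀ ℕ) :
    sc t (monomial s c) = C (t ^ s.degree) * monomial s c := by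
  rw [sc, aeval_monomial, monomial_eq, Finsupp.prod_fintype _ _ (by simp),
    Finsupp.prod_fintype _ _ (by simp), Finsupp.degree_eq_sum]
  simp only [Fin.prod_univ_two, Fin.sum_univ_two, algebraMap_eq, map_pow]
  ring

lemma coeff_sc {R : Type} [CommRing R] (t : R) (H : MvPolynomial (Fin 2) R) (s : Fin 2 →₀ ℕ) :
    (sc t H).coeff s = t ^ s.degree * H.coeff s := by
  classical
  induction H using MvPolynomial.induction_on' with
  | monomial s' c =>
    rw [sc_monomial, coeff_C_mul, coeff_monomial]
    split_ifs with h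
    · rw [h]
    · simp
  | add F G hF hG => rw [map_add, coeff_add, coeff_add, hF, hG, mul_add]

lemma eval_sc {R : Type} [CommRing R] (t : R) (q : Fin 2 → R) (H : MvPolynomial (Fin 2) R) :
    eval q (sc t H) = eval (fun k => t * q k) H := by
  induction H using MvPolynomial.induction_on with
  | C a => simp [sc]
  | add f g hf hg => simp only [map_add, hf, hg]
  | mul_X f k hf =>
    simp only [map_mul, hf]
    simp [sc]

lemma totalDegree_le_of {R : Type} [CommRing R] (G : MvPolynomial (Fin 2) R) (k : ℕ)
    (h : ∀ s : Fin 2 →₀ ℕ, k < s.degree → G.coeff s = 0) : G.totalDegree ≤ k := by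
  apply Finset.sup_le
  intro s hs
  by_contra hlt
  exact mem_support_iff.mp hs (h s (not_le.mp hlt))

end Glue

open Glue

theorem glue {K : Type} [Field K] {ι : Type} {κ : ι → Type} (P : ι → Fin 2 → K) (μ : ι → ℕ)
    (d : ℕ) (h : Emp P μ d) (Q : ∀ i, κ i → Fin 2 → K) (ν : ∀ i, κ i → ℕ)
    (hQ : ∀ i, Emp (Q i) (ν i) (μ i)) :
    ∃ P' : (Σ i, κ i) → Fin 2 → HahnSeries ℤ K, Emp P' (fun a => ν a.1 a.2) d := by
  set t : HahnSeries ℤ K := HahnSeries.single 1 1 with ht
  refine ⟨fun a k => t * HahnSeries.C (Q a.1 a.2 k) + HahnSeries.C (P a.1 k), ?_⟩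
  intro F hd hF
  by_contra hne
  obtain ⟨s0, hs0, hmin⟩ := Finset.exists_min_image F.support (fun s => (F.coeff s).order)
    (support_nonempty.mpr hne)
  set w := (F.coeff s0).order with hw
  have hlow : ∀ g < w, cf g F = 0 := by
    intro g hg
    ext s
    rw [coeff_cf, coeff_zero]
    by_cases hs : s ∈ F.support
    · exact HahnSeries.coeff_eq_zero_of_lt_order (hg.trans_le (hmin s hs))
    · rw [notMem_support_iff.mp hs]
      rfl
  have hF0 : cf w F ≠ 0 := by
    intro h0
    have := congrArg (fun G : MvPolynomial (Fin 2) K => G.coeff s0) h0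
    simp only [coeff_cf, coeff_zero] at this
    exact mem_support_iff.mp hs0 (HahnSeries.coeff_order_eq_zero.mp this)
  apply hF0
  apply h
  · refine lt_of_le_of_lt (Finset.sup_mono fun s hs => ?_) hd
    rw [mem_support_iff] at hs ⊢
    intro h0
    rw [coeff_cf, h0] at hs
    exact hs rfl
  · intro i
    rw [van_iff]
    intro s hs
    set φ := sc t (tr (fun k => (HahnSeries.C (P i k) : HahnSeries ℤ K)) F) with hφ
    have hco : ∀ (g : ℤ) (s' : Fin 2 →₀ ℕ),
        (cf g φ).coeff s' = (tr (P i) (cf (g - s'.degree) F)).coeff s' := by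
      intro g s'
      rw [← cf_tr, coeff_cf, coeff_cf, hφ, coeff_sc, ht, HahnSeries.single_pow,
        HahnSeries.coeff_single_mul]
      simp
    have hG : cf (w + s.degree) φ = 0 := by
      apply hQ i
      · refine lt_of_le_of_lt (totalDegree_le_of _ s.degree fun s' hs' => ?_) hs
        rw [hco, hlow _ (by omega), map_zero, coeff_zero]
      · intro a
        have h1 : φ ∈ RingHom.ker
            (eval fun k => (HahnSeries.C (Q i a k) : HahnSeries ℤ K)) ^ ν i a := by
          refine pow_map_mem (((sc t).comp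
            (tr fun k => (HahnSeries.C (P i k) : HahnSeries ℤ K))).toRingHom) _ _
            (fun b hb => ?_) _ F (hF ⟨i, a⟩)
          change eval _ (sc t (tr _ b)) = 0
          rw [eval_sc, eval_tr]
          exact hb
        rw [van_iff] at h1 ⊢
        intro s' hs'
        rw [← cf_tr, coeff_cf, h1 s' hs']
        rfl
    have := hco (w + s.degree) s
    rw [hG, coeff_zero, add_sub_cancel_right] at this
    exact this.symm

end Pool.Agent.P.MP_8707bd_ag.All
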