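import Mathlib
import Pool.Agent.P.MP_8707bd_ag.All.Defs
import Pool.Agent.P.MP_8707bd_ag.Irr.TreeC

/-!
The criterion with a tree of layers for affine points over Hahn series (helper file only).
-/

namespace Pool.Agent.P.MP_8707bd_ag.All

open MvPolynomial Row Irr

section aff

variable (L : Type) [Field L] [Algebra ℂ L]

/-- The polynomial ring in two variables. -/
abbrev R2 : Type := MvPolynomial (Fin 2) L

/-- Passing to the affine chart and extending the scalars. -/
noncomputable def aff : R3 →ₐ[ℂ] R2 L := MvPolynomial.aeval ![X 0, X 1, 1]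

/-- The derivation `z ∂_z`. -/
noncomputable def Sz (δ : ℕ) : Derivation L (R2 L) (R2 L) :=
  MvPolynomial.mkDerivation L ![X 0 - X 1 ^ δ, 0]

/-- The derivation `y ∂_y` at fixed `z`. -/
noncomputable def Sy (δ : ℕ) : Derivation L (R2 L) (R2 L) :=
  MvPolynomial.mkDerivation L ![(δ : R2 L) * X 1 ^ δ, X 1]

/-- The operator: `k` times `z ∂_z`, then `l` times `y ∂_y`. -/
noncomputable def op2 (δ k l : ℕ) : Module.End L (R2 L) :=
  ((Sy L δ).toLinearMap : Module.End L (R2 L)) ^ l *
    ((Sz L δ).toLinearMap : Module.End L (R2 L)) ^ k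

variable {L}

omit [Algebra ℂ L] in
lemma der_mem2 (D : Derivation L (R2 L) (R2 L)) (I : Ideal (R2 L)) (n : ℕ) :
    ∀ F ∈ I ^ n, D F ∈ I ^ (n - 1) := by
  induction n with
  | zero => intro F _; simp
  | succ n ih =>
    intro F hF
    rw [pow_succ] at hF
    refine Submodule.mul_induction_on hF ?_ ?_
    · intro a ha b hb
      rw [Derivation.leibniz, smul_eq_mul, smul_eq_mul, Nat.add_sub_cancel]
      refine Ideal.add_mem _ (Ideal.mul_mem_right _ _ ha) ?_
      have h1 : D a * b ∈ I ^ (n - 1) * I := Ideal.mul_mem_mul (ih a ha) hb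
      rw [← pow_succ] at h1
      rw [mul_comm]
      exact Ideal.pow_le_pow_right (by omega) h1
    · intro a b ha hb
      rw [map_add]
      exact Ideal.add_mem _ ha hb

omit [Algebra ℂ L] in
lemma der_pow_mem2 (D : Derivation L (R2 L) (R2 L)) (I : Ideal (R2 L)) (k : ℕ) :
    ∀ n, ∀ F ∈ I ^ n, ((D.toLinearMap : Module.End L (R2 L)) ^ k) F ∈ I ^ (n - k) := by
  induction k with
  | zero => intro n F hF; simpa using hF
  | succ k ih =>
    intro n F hF
    rw [pow_succ, Module.End.mul_apply]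
    have := ih (n - 1) _ (der_mem2 D I n F hF)
    rw [show n - (k + 1) = n - 1 - k by omega]
    exact this

lemma aff_C (a : ℂ) : aff L (C a) = C (algebraMap ℂ L a) := by
  rw [aff, MvPolynomial.aeval_C]
  rfl

lemma aff_der (D : Derivation ℂ R3 R3) (D' : Derivation L (R2 L) (R2 L))
    (h : ∀ k, aff L (D (X k)) = D' (aff L (X k))) (F : R3) : aff L (D F) = D' (aff L F) := by
  induction F using MvPolynomial.induction_on with
  | C a => rw [aff_C, MvPolynomial.derivation_C, MvPolynomial.derivation_C, map_zero]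
  | add p q hp hq => simp [hp, hq]
  | mul_X p k hp =>
    rw [Derivation.leibniz, map_mul, Derivation.leibniz]
    simp only [smul_eq_mul, map_add, map_mul, hp, h k]

lemma aff_Tz (δ : ℕ) (F : R3) : aff L (Tz δ F) = Sz L δ (aff L F) := by
  refine aff_der _ _ (fun k => ?_) F
  fin_cases k <;> simp [aff, Tz, Sz, MvPolynomial.mkDerivation_X]

lemma aff_Ty (δ : ℕ) (F : R3) : aff L (Ty δ F) = Sy L δ (aff L F) := by
  refine aff_der _ _ (fun k => ?_) F
  fin_cases k <;> simp [aff, Ty, Sy, MvPolynomial.mkDerivation_X]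

lemma aff_pow (D : Derivation ℂ R3 R3) (D' : Derivation L (R2 L) (R2 L))
    (h : ∀ F, aff L (D F) = D' (aff L F)) (k : ℕ) :
    ∀ F, aff L (((D.toLinearMap : Module.End ℂ R3) ^ k) F) =
      ((D'.toLinearMap : Module.End L (R2 L)) ^ k) (aff L F) := by
  induction k with
  | zero => intro F; simp
  | succ k ih =>
    intro F
    rw [pow_succ, pow_succ, Module.End.mul_apply, Module.End.mul_apply, ih]
    congr 1
    exact h F

lemma aff_op (δ k l : ℕ) (F : R3) : aff L (op δ k l F) = op2 L δ k l (aff L F) := by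
  unfold op op2
  rw [Module.End.mul_apply, Module.End.mul_apply, aff_pow _ _ (aff_Ty δ), aff_pow _ _ (aff_Tz δ)]

omit [Algebra ℂ L] in
lemma eval_op2 (P : Fin 2 → L) (δ k l μ : ℕ) (hkl : k + l < μ) (F : R2 L)
    (hF : F ∈ RingHom.ker (MvPolynomial.eval P) ^ μ) :
    MvPolynomial.eval P (op2 L δ k l F) = 0 := by
  have h1 := der_pow_mem2 (Sy L δ) _ l _ _ (der_pow_mem2 (Sz L δ) _ k _ _ hF)
  have h3 : RingHom.ker (MvPolynomial.eval P) ^ (μ - k - l) ≤
      RingHom.ker (MvPolynomial.eval P) ^ 1 := Ideal.pow_le_pow_right (by omega)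
  rw [pow_one] at h3
  exact h3 h1

lemma eval_aff (x y : L) (F : R3) :
    MvPolynomial.eval ![x, y] (aff L F) = MvPolynomial.aeval ![x, y, 1] F := by
  induction F using MvPolynomial.induction_on with
  | C a => rw [aff_C, MvPolynomial.eval_C, MvPolynomial.aeval_C]
  | add p q hp hq => simp only [map_add, hp, hq]
  | mul_X p k hp =>
    simp only [map_mul, hp]
    congr 1
    fin_cases k <;> simp [aff]

lemma aff_span (d δ J : ℕ) (hδ : 0 < δ) (hJ : d < (J + 1) * δ) (F : R2 L)
    (hF : F.totalDegree < d + 1) :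
    ∃ c : Idx d δ J → L, ∑ σ, c σ • aff L (Bas d δ σ.1 σ.2.1 σ.2.2) = F := by
  rw [← Submodule.mem_span_range_iff_exists_fun, F.as_sum]
  refine Submodule.sum_mem _ fun m hm => ?_
  have hdeg : m 0 + m 1 ≤ d := by
    have h1 := MvPolynomial.le_totalDegree hm
    rw [Finsupp.sum_fintype _ _ (by simp), Fin.sum_univ_two] at h1
    omega
  have h1 := mono_mem_span d δ J hδ hJ (m 1) 0 (m 0) (d - m 0 - m 1) (by omega)
  have h2 : ∀ A ∈ Submodule.span ℂ (Set.range fun σ : Idx d δ J => Bas d δ σ.1 σ.2.1 σ.2.2),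
      aff L A ∈ Submodule.span L
        (Set.range fun σ : Idx d δ J => aff L (Bas d δ σ.1 σ.2.1 σ.2.2)) := by
    intro A hA
    induction hA using Submodule.span_induction with
    | mem A hA =>
      obtain ⟨σ, rfl⟩ := hA
      exact Submodule.subset_span ⟨σ, rfl⟩
    | zero => rw [map_zero]; exact Submodule.zero_mem _
    | add A B _ _ hA hB => rw [map_add]; exact Submodule.add_mem _ hA hB
    | smul a A _ hA =>
      rw [MvPolynomial.smul_eq_C_mul, map_mul, aff_C, ← MvPolynomial.smul_eq_C_mul]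
      exact Submodule.smul_mem _ _ hA
  have h3 : (MvPolynomial.monomial m (MvPolynomial.coeff m F) : R2 L) =
      MvPolynomial.coeff m F • aff L ((X 0 * X 2 ^ (δ - 1) - X 1 ^ δ) ^ 0 * X 0 ^ m 0 *
        X 1 ^ m 1 * X 2 ^ (d - m 0 - m 1) : R3) := by
    rw [MvPolynomial.monomial_eq, Finsupp.prod_fintype _ _ (by simp), Fin.prod_univ_two,
      MvPolynomial.smul_eq_C_mul]
    simp [aff]
  rw [h3]
  exact Submodule.smul_mem _ _ (h2 _ h1)

/-- The conditions on the coefficients of a polynomial vanishing at a point. -/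
lemma aff_cond (d δ J : ℕ) (hδ : 0 < δ) (hJ : d < (J + 1) * δ) (F : R2 L)
    (hF : F.totalDegree < d + 1) :
    ∃ c : Idx d δ J → L, (c = 0 → F = 0) ∧ ∀ (x y : L) (μ k l : ℕ), k + l < μ →
      F ∈ RingHom.ker (MvPolynomial.eval ![x, y]) ^ μ →
      ∑ σ : Idx d δ J, MvPolynomial.aeval ![x, y, 1] (op δ k l (Bas d δ σ.1 σ.2.1 σ.2.2)) *
        c σ = 0 := by
  obtain ⟨c, hc⟩ := aff_span d δ J hδ hJ F hF
  refine ⟨c, fun hc0 => ?_, fun x y μ k l hkl hvan => ?_⟩
  · rw [← hc, hc0]
    simp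
  · have h1 := eval_op2 _ δ k l μ hkl F hvan
    rw [← hc, map_sum, map_sum] at h1
    rw [← h1]
    refine Finset.sum_congr rfl fun σ _ => ?_
    rw [map_smul, MvPolynomial.smul_eval, ← aff_op, mul_comm, eval_aff]

end aff

lemma exists_acc' {K : Type} (rt : K) (par : K → K) (dep : K → ℕ)
    (hdep : ∀ k ≠ rt, dep (par k) < dep k) (u : K → ℝ) :
    ∃ f : K → ℝ, ∀ k ≠ rt, f k = f (par k) + u k := by
  classical
  have wf : WellFounded fun x y : K => dep x < dep y := InvImage.wf dep wellFounded_lt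
  refine ⟨wf.fix fun k f => if h : k = rt then 0 else f (par k) (hdep k h) + u k, fun k hk => ?_⟩
  rw [wf.fix_eq, dif_neg hk]

lemma rowLen_le' (d δ j : ℕ) (hj : j * δ ≤ d) : rowLen d δ j ≤ δ * (d - j * δ) + 1 := by
  have : ∀ n k : ℕ, ∑ b ∈ Finset.range k, (n + 1 - b) ≤ k * n + 1 := by
    intro n k
    induction k with
    | zero => simp
    | succ k ih =>
      rcases Nat.eq_zero_or_pos k with rfl | hk
      · simp
      · rw [Finset.sum_range_succ, add_mul]; omega
  refine le_trans (le_of_eq ?_) (this (d - j * δ) δ)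
  exact Finset.sum_congr rfl fun b _ => by omega

theorem tree {ι : Type} [Fintype ι] (d δ J s : ℕ) (hδ : 0 < δ) (hJ : d < (J + 1) * δ)
    (hs : 0 < s) (μ ph : ι → ℕ) (hph : ∀ i, ph i < s) (par : ℕ → ℕ)
    (hpar : ∀ k, 0 < k → k < s → par k < k) (lam : ℕ → ℝ)
    (hlam : ∀ k, 0 < k → k < s → 0 < lam k) (G E : ℕ → ℕ → ℝ)
    (hG : ∀ k, 0 < k → k < s → ∀ j ≤ J, G k j = G (par k) j + lam k * E k j) (h : ι → ℝ)
    (hroot : ∀ j ≤ J, (δ : ℝ) * d - δ * δ * j <
      (∑ i, if ph i = 0 then ((μ i - rk J (G 0) (h i) j : ℕ) : ℝ) else 0) +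
        ∑ k' ∈ Finset.Ioo 0 s, if par k' = 0 then E k' j else 0)
    (hk : ∀ k, 0 < k → k < s → ∀ j ≤ J, E k j ≤
      (∑ i, if ph i = k then ((μ i - rk J (G k) (h i) j : ℕ) : ℝ) else 0) +
        ∑ k' ∈ Finset.Ioo 0 s, if par k' = k then E k' j else 0) :
    ∃ P : ι → Fin 2 → HL, Emp P μ (d + 1) := by
  classical
  set r : ℕ := Fintype.card ι with hr
  set e : ι ≃ Fin r := Fintype.equivFin ι with he
  set rt : Fin s := ⟨0, hs⟩ with hrt
  have hne : ∀ k : Fin s, k ≠ rt → 0 < (k : ℕ) := fun k hk =>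
    Nat.pos_of_ne_zero fun h0 => hk (Fin.ext h0)
  set pa : Fin s → Fin s := fun k =>
    if h0 : 0 < (k : ℕ) then ⟨par k, (hpar k h0 k.2).trans k.2⟩ else rt with hpa
  have hpa1 : ∀ k : Fin s, k ≠ rt → (pa k : ℕ) = par k := by
    intro k hk
    simp only [hpa, dif_pos (hne k hk)]
  obtain ⟨η, hη⟩ := exists_acc' rt pa (fun k => (k : ℕ)) (fun k hk => by
    simp only [hpa1 k hk]
    exact hpar k (hne k hk) k.2) fun k => lam k
  have hη1 : ∀ k ≠ rt, η (pa k) < η k := fun k hk => by
    rw [hη k hk]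
    linarith [hlam k (hne k hk) k.2]
  set lo : Fin s → ℕ → ℕ := fun k j => ⌈E k j⌉₊ with hlo
  set G' : Fin s → ℕ → ℝ := fun k => G k with hG'
  set μ' : Fin r → ℕ := fun i => μ (e.symm i) with hμ'
  set h' : Fin r → ℝ := fun i => h (e.symm i) with hh'
  set ph' : Fin r → Fin s := fun i => ⟨ph (e.symm i), hph _⟩ with hph'
  have htot : ∀ (k : Fin s) (j : ℕ),
      (∑ i, if ph i = k then ((μ i - rk J (G k) (h i) j : ℕ) : ℝ) else 0) +
        (∑ k' ∈ Finset.Ioo 0 s, if par k' = k then E k' j else 0) ≤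
      (tot J μ' rt pa G' lo ph' h' k j : ℝ) := by
    intro k j
    rw [tot, Nat.cast_add, Nat.cast_sum, Nat.cast_sum, add_comm]
    refine add_le_add ?_ (le_of_eq ?_)
    · have h1 : ∑ w : Fin s, (((if w ≠ rt ∧ pa w = k then lo w j else 0 : ℕ)) : ℝ) =
          ∑ w ∈ Finset.range s, if 0 < w ∧ par w = k then (⌈E w j⌉₊ : ℝ) else 0 := by
        rw [← Fin.sum_univ_eq_sum_range
          (fun w => if 0 < w ∧ par w = k then (⌈E w j⌉₊ : ℝ) else 0) s]
        refine Finset.sum_congr rfl fun w _ => ?_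
        by_cases hw : w = rt
        · rw [if_neg (fun h0 => h0.1 hw), if_neg (fun h0 => by simp [hw, hrt] at h0)]
          simp
        · by_cases hw2 : pa w = k
          · rw [if_pos ⟨hw, hw2⟩, if_pos ⟨hne w hw, by rw [← hpa1 w hw, hw2]⟩]
          · rw [if_neg (fun h0 => hw2 h0.2),
              if_neg (fun h0 => hw2 (Fin.ext (by rw [hpa1 w hw]; exact h0.2)))]
            simp
      rw [h1]
      refine le_trans (Finset.sum_le_sum (g := fun w =>
        if 0 < w ∧ par w = k then (⌈E w j⌉₊ : ℝ) else 0) fun w hw => ?_)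
        (Finset.sum_le_sum_of_subset_of_nonneg (fun w hw => ?_) fun w _ _ => ?_)
      · have h2 := (Finset.mem_Ioo.1 hw).1
        by_cases hw2 : par w = k
        · rw [if_pos hw2, if_pos ⟨h2, hw2⟩]
          exact Nat.le_ceil _
        · rw [if_neg hw2, if_neg (fun h0 => hw2 h0.2)]
      · exact Finset.mem_range.2 (Finset.mem_Ioo.1 hw).2
      · split_ifs <;> positivity
    · rw [← Equiv.sum_comp e.symm]
      refine Finset.sum_congr rfl fun i _ => ?_
      by_cases hi : ph' i = k
      · rw [if_pos hi, if_pos (congrArg Fin.val hi)]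
      · rw [if_neg hi, if_neg (fun h0 => hi (Fin.ext h0))]
        simp
  obtain ⟨H0, hH0⟩ := Finite.exists_le fun t : Fin r × Fin (J + 1) × Fin (J + 1) =>
    max 0 (h' t.1 * t.2.2 + G' (ph' t.1) t.2.2 - (h' t.1 * t.2.1 + G' rt t.2.1)) - h' t.1 +
      δ * η rt
  have hcard : ∀ j : Fin (J + 1),
      Fintype.card (Σ b : Fin δ, Fin (d + 1 - j * δ - b)) = rowLen d δ j := by
    intro j
    rw [Fintype.card_sigma, rowLen, ← Fin.sum_univ_eq_sum_range (fun b => d + 1 - j * δ - b)]
    simp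
  set sv : Fin s → ℕ := fun k => (k : ℕ) + 1 with hsv
  obtain ⟨a, a0, a1, a2⟩ := exists_centre rt pa η hη1 sv
  set y : Fin r → ℕ := fun i => s + 1 + i with hy
  set P : Fin r → Fin 2 → HL := fun i => ![tp (h' i + (H0 + 1)) +
    (a (ph' i) + tp (η (ph' i)) * y i) ^ δ, a (ph' i) + tp (η (ph' i)) * y i] with hP
  have key : Emp P μ' (d + 1) := by
    intro F hF hvan
    obtain ⟨c, hc, hc1⟩ := aff_cond d δ J hδ hJ F hF
    have hc0 : c = 0 := by
      refine tree_inj r d δ J μ' rt pa G' η lo (fun k hk j hj α _ => ?_) hη1 ph' h' (H0 + 1)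
        (fun i => ?_) (fun i j j0 => ?_) sv (fun k k' hk => ?_) (fun k => Nat.succ_pos _) y
        (fun i i' hi => Fin.ext (by simpa [hy] using hi)) (fun i k => ?_) a a0 a1 a2
        (fun _ => ∅) (fun j => ?_) (fun j hj k hk0 => ?_) c (fun σ hσ => by simp at hσ)
        (fun i k l hkl => ?_)
      · have h1 := hG k (hne k hk) k.2 j hj
        have h2 := hlam k (hne k hk) k.2
        simp only [hlo, hG', hpa1 k hk]
        rw [Nat.lt_ceil, hη k hk, h1]
        constructor
        · intro h3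
          nlinarith
        · intro h3
          by_contra h4
          push Not at h4
          nlinarith
      · have := hH0 (i, 0, 0)
        simp only at this
        linarith [le_max_left 0 (h' i * ((0 : Fin (J + 1)) : ℕ) + G' (ph' i) (0 : Fin (J + 1)) -
          (h' i * ((0 : Fin (J + 1)) : ℕ) + G' rt (0 : Fin (J + 1))))]
      · have := hH0 (i, j, j0)
        simp only at this
        linarith [le_max_right 0 (h' i * j0 + G' (ph' i) j0 - (h' i * j + G' rt j))]
      · exact Fin.ext (by simpa [hsv] using hk)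
      · have := k.2
        simp only [hsv, hy]
        omega
      · rw [Finset.compl_empty, Finset.card_univ, hcard]
        by_cases hj : (j : ℕ) * δ ≤ d
        · refine (rowLen_le' d δ j hj).trans (Nat.succ_le_of_lt ?_)
          have h1 := lt_of_lt_of_le (hroot j (by have := j.2; omega)) (htot rt j)
          have h2 : ((δ * (d - j * δ) : ℕ) : ℝ) = (δ : ℝ) * d - δ * δ * j := by
            push_cast [Nat.cast_sub hj]
            ring
          rw [← h2] at h1
          exact_mod_cast h1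
        · rw [rowLen, Finset.sum_eq_zero (fun b _ => by omega)]
          exact Nat.zero_le _
      · exact Nat.ceil_le.2 ((hk k (hne k hk0) k.2 j hj).trans (htot k j))
      · exact hc1 _ _ (μ' i) k l hkl (hvan i)
    exact hc hc0
  refine ⟨fun i => P (e i), ?_⟩
  have h1 := key.reindex e
  simpa only [hμ', Equiv.symm_apply_apply] using h1

end Pool.Agent.P.MP_8707bd_ag.All
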