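import Mathlib
import Pool.Agent.P.MP_8707bd_ag.All.Tree
import Pool.Agent.P.MP_8707bd_ag.Irr.Cont

/-!
The continuum form of the tree criterion (helper file only).
-/

namespace Pool.Agent.P.MP_8707bd_ag.All

open Row Irr Filter Topology

theorem cont_tree {ι : Type} [Fintype ι] (δ : ℕ) (hδ : 0 < δ) (L : ℝ) {p : ℕ} (s : ℕ)
    (hs : 0 < s) (N μ ph : ι → ℕ) (hph : ∀ t, ph t < s) (par : ℕ → ℕ)
    (hpar : ∀ k, 0 < k → k < s → par k < k) (lev : ℕ → ℕ)
    (hlev : ∀ k, 0 < k → k < s → lev k < p) (g : ℕ → ℝ → Fin p → ℝ) (E : ℕ → ℝ → ℝ)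
    (hg : ∀ k, 0 < k → k < s → ∀ x, ∀ i : Fin p,
      g k x i = g (par k) x i + if (i : ℕ) = lev k then E k x else 0)
    (h : ι → Fin p → ℝ) (ℓ : ι → ℝ → ℝ)
    (hℓ : ∀ t x, 0 ≤ x → x ≤ L → ℓ t x ≤ 0 ∨ Cov (RankRel (g (ph t)) (h t) x) (μ t - ℓ t x))
    (hroot : ∀ x, 0 ≤ x → x ≤ L → (δ : ℝ) ^ 2 * (L - x) ≤
      (∑ t, if ph t = 0 then N t * ℓ t x else 0) +
        ∑ k' ∈ Finset.Ioo 0 s, if par k' = 0 then E k' x else 0)
    (hk : ∀ k, 0 < k → k < s → ∀ x, 0 ≤ x → x ≤ L → E k x ≤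
      (∑ t, if ph t = k then N t * ℓ t x else 0) +
        ∑ k' ∈ Finset.Ioo 0 s, if par k' = k then E k' x else 0)
    (m d : ℕ) (hd : (d : ℝ) < δ * L * m) :
    ∃ P : (Σ t, Fin (N t)) → Fin 2 → HL, Emp P (fun a => μ a.1 * m) (d + 1) := by
  classical
  set M : ℝ := (m : ℝ) with hMdef
  have hδ' : (0 : ℝ) < δ := by exact_mod_cast hδ
  have hM : 0 < M := by
    rcases Nat.eq_zero_or_pos m with h0 | h0
    · exfalso
      have h1 : M = 0 := by rw [hMdef, h0]; simp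
      rw [h1, mul_zero] at hd
      have : (0 : ℝ) ≤ d := by positivity
      linarith
    · rw [hMdef]; exact_mod_cast h0
  set J : ℕ := d / δ with hJ
  have e2 : ∀ᶠ ε in 𝓝[>] (0 : ℝ), ∀ s : ι × Fin (J + 1) × Fin (J + 1),
      ∑ i : Fin p, ε ^ (i : ℕ) *
          (M * (h s.1 i * ((s.2.1 : ℕ) / M) + g (ph s.1) ((s.2.1 : ℕ) / M) i))
        ≤ ∑ i : Fin p, ε ^ (i : ℕ) *
          (M * (h s.1 i * ((s.2.2 : ℕ) / M) + g (ph s.1) ((s.2.2 : ℕ) / M) i)) →
      LexLe (fun i => M * (h s.1 i * ((s.2.1 : ℕ) / M) + g (ph s.1) ((s.2.1 : ℕ) / M) i))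
        (fun i => M * (h s.1 i * ((s.2.2 : ℕ) / M) + g (ph s.1) ((s.2.2 : ℕ) / M) i)) :=
    eventually_all.2 fun s => lex_ev _ _
  obtain ⟨ε, hε2, hε0⟩ := (e2.and self_mem_nhdsWithin).exists
  have hε : 0 < ε := hε0
  set G : ℕ → ℕ → ℝ := fun k j => ∑ i : Fin p, ε ^ (i : ℕ) * (M * g k (j / M) i) with hG
  set H : ι → ℝ := fun t => ∑ i : Fin p, ε ^ (i : ℕ) * h t i with hH
  have hHG : ∀ (t : ι) (j : ℕ), H t * j + G (ph t) j =
      ∑ i : Fin p, ε ^ (i : ℕ) * (M * (h t i * (j / M) + g (ph t) (j / M) i)) := by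
    intro t j
    simp only [hG, hH]
    rw [Finset.sum_mul, ← Finset.sum_add_distrib]
    refine Finset.sum_congr rfl fun i _ => ?_
    field_simp
  have hx0 : ∀ j : ℕ, (0 : ℝ) ≤ j / M := fun j => by positivity
  have hxL : ∀ j ≤ J, (j : ℝ) / M ≤ L := by
    intro j hj
    have hjd : (j : ℝ) * δ ≤ d := by
      have : j * δ ≤ d := le_trans (Nat.mul_le_mul_right _ hj) (Nat.div_mul_le_self d δ)
      exact_mod_cast this
    rw [div_le_iff₀ hM]
    have : (j : ℝ) * δ ≤ (L * M) * δ := by linarith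
    exact le_of_mul_le_mul_right this hδ'
  have hrk : ∀ t, ∀ j ≤ J,
      M * ℓ t (j / M) ≤ ((μ t * m - rk J (G (ph t)) (H t) j : ℕ) : ℝ) := by
    intro t j hj
    rcases hℓ t _ (hx0 j) (hxL j hj) with h4 | ht
    · have h5 : (0 : ℝ) ≤ ((μ t * m - rk J (G (ph t)) (H t) j : ℕ) : ℝ) := by positivity
      nlinarith [mul_nonneg hM.le (neg_nonneg.2 h4)]
    have h1 : (rk J (G (ph t)) (H t) j : ℝ) + 1 ≤ M * (μ t - ℓ t (j / M)) + 1 := by
      have h2 := card_le_of_cov hM ht (insert j ((Finset.range (J + 1)).filter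
        fun j' : ℕ => j' ≠ j ∧ H t * j' + G (ph t) j' ≤ H t * j + G (ph t) j)) (by
          intro j' hj'
          rcases Finset.mem_insert.1 hj' with rfl | hj'
          · exact ⟨hx0 _, fun i _ => le_rfl⟩
          simp only [Finset.mem_filter, Finset.mem_range] at hj'
          refine ⟨hx0 _, LexLe.of_smul hM ?_⟩
          refine hε2 (t, ⟨j', hj'.1⟩, ⟨j, by omega⟩) ?_
          simp only
          rw [← hHG, ← hHG]
          exact hj'.2.2)
      rw [Finset.card_insert_of_notMem (by simp)] at h2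
      push_cast at h2
      exact h2
    have h2 : μ t * m ≤ (μ t * m - rk J (G (ph t)) (H t) j) + rk J (G (ph t)) (H t) j := by omega
    have h3 : (μ t : ℝ) * M ≤
        ((μ t * m - rk J (G (ph t)) (H t) j : ℕ) : ℝ) + rk J (G (ph t)) (H t) j := by
      rw [hMdef]
      exact_mod_cast h2
    linarith
  have hkey : ∀ k, ∀ j ≤ J,
      M * ((∑ t, if ph t = k then N t * ℓ t (j / M) else 0) +
        ∑ k' ∈ Finset.Ioo 0 s, if par k' = k then E k' (j / M) else 0) ≤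
      (∑ a : (Σ t, Fin (N t)), if ph a.1 = k then
          ((μ a.1 * m - rk J (G k) (H a.1) j : ℕ) : ℝ) else 0) +
        ∑ k' ∈ Finset.Ioo 0 s, if par k' = k then M * E k' (j / M) else 0 := by
    intro k j hj
    rw [mul_add, Finset.mul_sum, Finset.mul_sum, Fintype.sum_sigma]
    refine add_le_add (Finset.sum_le_sum fun t _ => ?_) (le_of_eq ?_)
    · simp only [Finset.sum_const, Finset.card_univ, Fintype.card_fin, nsmul_eq_mul]
      split_ifs with hp
      · have h5 := hrk t j hj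
        rw [hp] at h5
        have hNt : (0 : ℝ) ≤ N t := by positivity
        nlinarith [mul_le_mul_of_nonneg_left h5 hNt]
      · simp
    · refine Finset.sum_congr rfl fun k' _ => ?_
      split_ifs <;> simp
  refine tree d δ J s hδ (by rw [hJ, mul_comm]; exact Nat.lt_mul_div_succ d hδ) hs
    (fun a : (Σ t, Fin (N t)) => μ a.1 * m) (fun a => ph a.1) (fun a => hph a.1) par hpar
    (fun k => ε ^ lev k) (fun k _ _ => pow_pos hε _) G (fun k j => M * E k (j / M)) ?_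
    (fun a => H a.1) ?_ ?_
  · intro k hk0 hks j _
    simp only [hG]
    have h1 : ∀ i : Fin p, ε ^ (i : ℕ) * (M * g k (j / M) i) =
        ε ^ (i : ℕ) * (M * g (par k) (j / M) i) +
          if i = ⟨lev k, hlev k hk0 hks⟩ then ε ^ lev k * (M * E k (j / M)) else 0 := by
      intro i
      rw [hg k hk0 hks]
      by_cases hi : (i : ℕ) = lev k
      · have h2 : i = ⟨lev k, hlev k hk0 hks⟩ := Fin.ext hi
        rw [if_pos hi, if_pos h2, hi]
        ring
      · have h2 : ¬ i = ⟨lev k, hlev k hk0 hks⟩ := fun h3 => hi (by rw [h3])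
        rw [if_neg hi, if_neg h2]
        ring
    rw [Finset.sum_congr rfl fun i _ => h1 i, Finset.sum_add_distrib,
      Finset.sum_ite_eq' Finset.univ, if_pos (Finset.mem_univ _)]
  · intro j hj
    refine lt_of_lt_of_le ?_ (hkey 0 j hj)
    have h1 := mul_le_mul_of_nonneg_left (hroot _ (hx0 j) (hxL j hj)) hM.le
    refine lt_of_lt_of_le ?_ h1
    have h5 : M * ((δ : ℝ) ^ 2 * (L - j / M)) = δ * (δ * L * M) - δ * δ * j := by
      field_simp
    have h6 : (δ : ℝ) * d < δ * (δ * L * M) := mul_lt_mul_of_pos_left hd hδ'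
    linarith
  · intro k hk0 hks j hj
    refine le_trans ?_ (hkey k j hj)
    exact mul_le_mul_of_nonneg_left (hk k hk0 hks _ (hx0 j) (hxL j hj)) hM.le

end Pool.Agent.P.MP_8707bd_ag.All
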