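import Mathlib
import Pool.Agent.P.MP_8707bd_ag.Irr.Shape

namespace Pool.Agent.P.MP_8707bd_ag.All

open Irr

namespace Shape

lemma lex_at {p : ℕ} {a b u : Fin p → ℝ} (hab : LexLe a b) (hu : LexLe 0 u) (i : Fin p)
    (h : ∀ j, j < i → a j - b j = u j) : a i - u i ≤ b i := by
  have key : ∀ m : ℕ, ∀ j : Fin p, (j : ℕ) < m → j < i → u j = 0 := by
    intro m
    induction m with
    | zero => intro j hj; omega
    | succ m ih =>
      intro j hj hji
      have h0 : ∀ j', j' < j → u j' = 0 := fun j' h' =>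
        ih j' (by have : (j' : ℕ) < j := h'; omega) (h'.trans hji)
      have h1 := hab j fun j' h' => by linarith [h j' (h'.trans hji), h0 j' h']
      have h2 : (0 : ℝ) ≤ u j := hu j fun j' h' => (h0 j' h').symm
      linarith [h j hji]
  have h0 : ∀ j, j < i → u j = 0 := fun j hj => key _ j (Nat.lt_succ_self _) hj
  have h1 := hab i fun j hj => by linarith [h j hj, h0 j hj]
  have h2 : (0 : ℝ) ≤ u i := hu i fun j hj => (h0 j hj).symm
  linarith

lemma lex_add {p : ℕ} {u v : Fin p → ℝ} (hu : LexLe 0 u) (hv : LexLe 0 v) :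
    LexLe 0 (fun j => u j + v j) := by
  intro i hi
  have := lex_at (a := fun j => -u j) (b := 0) (u := v) (fun j hj => by
    have := hu j fun j' h' => by have := hj j' h'; simp only [Pi.zero_apply] at this ⊢; linarith
    simp only [Pi.zero_apply] at this ⊢; linarith) hv i fun j hj => by
    have := hi j hj
    simp only [Pi.zero_apply] at this ⊢; linarith
  simp only [Pi.zero_apply] at this ⊢; linarith

lemma lex_sum {p : ℕ} (s : Finset ℕ) (c : ℕ → ℝ) (K : ℕ → Fin p → ℝ)
    (h : ∀ w ∈ s, c w = 0 ∨ (0 ≤ c w ∧ LexLe 0 (K w))) :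
    LexLe 0 (fun j => ∑ w ∈ s, K w j * c w) := by
  induction s using Finset.induction_on with
  | empty => intro i _; simp
  | insert w s hw ih =>
    simp only [Finset.sum_insert hw]
    refine lex_add ?_ (ih fun w' h' => h w' (Finset.mem_insert_of_mem h'))
    intro i hi
    by_cases h0 : c w = 0
    · simp [h0]
    · obtain ⟨h1, h2⟩ := (h w (Finset.mem_insert_self _ _)).resolve_left h0
      exact mul_nonneg (h2 i fun j hj => ((mul_eq_zero.1 (hi j hj).symm).resolve_right h0).symm) h1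

lemma lt_one {P : ℕ} {j : Fin (P + 2)} (h : j < 1) : j = 0 := by
  apply Fin.ext
  have := Fin.lt_def.1 h
  rw [Fin.val_one] at this
  rw [Fin.val_zero]; omega

end Shape

/-- The universal profile. -/
noncomputable def U (A0 e1 p z q e2 x : ℝ) : ℝ :=
  A0 + pp (x - e1) + ((q - p) * (z - p)⁻¹ - 1) * pp (x - p) -
    ((q - p) * (z - p)⁻¹ + (q - p) * (q - z)⁻¹) * pp (x - z) +
    ((q - p) * (q - z)⁻¹ - 1) * pp (x - q) + pp (x - e2)

theorem cov_tent {P : ℕ} (n : ℕ) (X : ℕ → ℝ) (X0 : X 0 = 0)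
    (hX : ∀ a b, a < b → b ≤ n → X a < X b) (g : ℝ → Fin (P + 2) → ℝ) (C : Fin (P + 2) → ℝ)
    (K : ℕ → Fin (P + 2) → ℝ) (hwall : ∀ x, g x 0 = pp (x - X n)) (hK0 : ∀ w, K w 0 = 0)
    (hg : ∀ x, 0 ≤ x → x ≤ X n → ∀ j,
      g x j = C j + ∑ w ∈ Finset.range n, K w j * pp (x - X w))
    (hK : ∀ w, 0 < w → w < n → LexLe 0 (K w))
    (p z q : ℕ) (hpz : p < z) (hzq : z < q) (hq : q ≤ n) (i : Fin (P + 2))
    (z1 : ∀ j, j < i → ∀ w, p < w → w < q → K w j = 0)
    (z2 : ∀ w, p < w → w < q → w ≠ z → K w i = 0) (z3 : 0 < K z i) (μ A0 e1 e2 : ℝ)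
    (hshape : (p = 0 ∧ A0 = μ - X q ∧ e1 = 0 ∧ e2 = μ ∧ X q ≤ μ) ∨
      (q = n ∧ A0 = 0 ∧ e1 = X n - μ ∧ e1 ≤ X p ∧ e2 = X n) ∨
      (A0 = 0 ∧ e1 = X p ∧ e2 = X q ∧ X q = X p + μ)) :
    ∃ h : Fin (P + 2) → ℝ, ∀ x, 0 ≤ x → x ≤ X n →
      U A0 e1 (X p) (X z) (X q) e2 x ≤ 0 ∨
        Cov (RankRel g h x) (μ - U A0 e1 (X p) (X z) (X q) e2 x) := by
  have hle : ∀ a b, a ≤ b → b ≤ n → X a ≤ X b := fun a b h1 h2 =>
    h1.eq_or_lt.elim (fun e => e ▸ le_rfl) fun h => (hX a b h h2).le
  have x1 : X p < X z := hX p z hpz (by omega)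
  have x2 : X z < X q := hX z q hzq hq
  have x3 : X q ≤ X n := hle q n hq le_rfl
  have x0 : 0 ≤ X p := X0 ▸ hle 0 p (Nat.zero_le _) (by omega)
  have hi0 : 0 < i := by
    refine Fin.pos_iff_ne_zero.2 fun e => ?_
    rw [e, hK0] at z3
    exact lt_irrefl _ z3
  set B := K z i with hB
  set V : ℝ → ℝ := fun t => -(B * (X q - X z) / (X q - X p) * t) + B * pp (t - X z) with hV
  have hVs : Vsh V (X p) (X z) (X q) := vsh_of V (fun _ => 0) _ _ _ 0 B x1 x2 z3
    (fun x => by simp only [hV]; ring) (fun _ => le_rfl) (fun _ _ _ => rfl)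
  set φ : ℕ → ℝ → ℝ := fun w t => if w ≤ p then pp (X w - t) else if q ≤ w then pp (t - X w) else 0
    with hφ
  set h : Fin (P + 2) → ℝ := fun j => -(∑ w ∈ Finset.range n, if w ≤ p then K w j else 0) -
    if j = i then B * (X q - X z) / (X q - X p) else 0 with hh
  have hF : ∀ t, 0 ≤ t → t ≤ X n → ∀ j, j ≤ i → h j * t + g t j =
      C j - (∑ w ∈ Finset.range n, if w ≤ p then K w j * X w else 0) +
        ∑ w ∈ Finset.range n, K w j * φ w t + if j = i then V t else 0 := by
    intro t t0 t1 j hj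
    have e1 : ∀ w ∈ Finset.range n, K w j * pp (t - X w) = (if w ≤ p then K w j else 0) * t -
        (if w ≤ p then K w j * X w else 0) + K w j * φ w t +
        if w = z then (if j = i then B * pp (t - X z) else 0) else 0 := by
      intro w _
      by_cases a : w ≤ p
      · simp only [hφ, a, if_true, if_neg (show w ≠ z by omega)]
        rw [pp_flip]; ring
      · by_cases b : q ≤ w
        · simp only [hφ, a, b, if_true, if_false, if_neg (show w ≠ z by omega)]
          ring
        · simp only [hφ, a, b, if_false]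
          by_cases c : j = i
          · by_cases d : w = z
            · simp only [c, d, if_true, ← hB]; ring
            · rw [c, z2 w (by omega) (by omega) d, if_neg d]; ring
          · rw [z1 j (lt_of_le_of_ne hj c) w (by omega) (by omega)]
            simp [c]
    rw [hg t t0 t1 j, Finset.sum_congr rfl e1, Finset.sum_add_distrib, Finset.sum_add_distrib,
      Finset.sum_sub_distrib, ← Finset.sum_mul, Finset.sum_ite_eq',
      if_pos (Finset.mem_range.2 (by omega))]
    simp only [hh, hV]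
    split_ifs <;> ring
  have hR : ∀ x y, 0 ≤ x → x ≤ X n → RankRel g h x y → y ≤ X n ∧
      ((∀ w, w ≤ n → φ w x ≤ φ w y) → V y ≤ V x) := by
    intro x y h0 h1 ⟨y0, hy⟩
    have a1 : y ≤ X n := by
      have := hy 0 fun j hj => absurd hj (Fin.not_lt_zero j)
      simp only [hh, hK0, hwall, pp_of_le h1, if_neg hi0.ne, ite_self, Finset.sum_const_zero] at this
      linarith [le_pp (y - X n)]
    refine ⟨a1, fun hc => ?_⟩
    have a2 := Shape.lex_sum (Finset.range n) (fun w => φ w y - φ w x) K fun w hw => by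
      rcases Nat.eq_zero_or_pos w with e | e
      · left
        simp only [hφ, e, Nat.zero_le, if_true, X0, pp_of_le y0, pp_of_le h0, sub_self]
      · exact Or.inr ⟨sub_nonneg.2 (hc w (Finset.mem_range.1 hw).le),
          hK w e (Finset.mem_range.1 hw)⟩
    have a3 := Shape.lex_at hy a2 i fun j hj => by
      simp only [hF y y0 a1 j hj.le, hF x h0 h1 j hj.le, if_neg hj.ne, mul_sub,
        Finset.sum_sub_distrib]
      ring
    simp only [hF y y0 a1 i le_rfl, hF x h0 h1 i le_rfl, if_true, mul_sub,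
      Finset.sum_sub_distrib] at a3
    linarith
  have φ0 : ∀ w t, 0 ≤ φ w t := fun w t => by
    simp only [hφ]; split_ifs; exacts [pp_nonneg _, pp_nonneg _, le_rfl]
  have n1 : X z - X p ≠ 0 := by linarith
  have n2 : X q - X z ≠ 0 := by linarith
  have s1 : ∀ x, X p ≤ x → A0 + pp (x - e1) = μ - (X q - X p) + (x - X p) := by
    intro x hx
    rcases hshape with ⟨a, b, c, -, -⟩ | ⟨a, b, c, d, -⟩ | ⟨b, c, -, d⟩
    · rw [a, X0] at hx ⊢
      rw [b, c, pp_of_ge hx]; ring
    · rw [pp_of_ge (d.trans hx), a, b, c]; ring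
    · rw [b, c, pp_of_ge hx, d]; ring
  have s2 : X q ≤ e2 := by
    rcases hshape with ⟨-, -, -, a, b⟩ | ⟨a, -, -, -, b⟩ | ⟨-, -, a, -⟩
    · rw [a]; exact b
    · rw [a, b]
    · rw [a]
  obtain ⟨σ, τ, hσ, hτ, -, hl, hu, -, -⟩ := id hVs
  refine ⟨h, fun x h0 h1 => ?_⟩
  rcases lt_or_ge x (X p) with c1 | c1
  · have eU : U A0 e1 (X p) (X z) (X q) e2 x = A0 + pp (x - e1) := by
      rw [U, pp_of_le c1.le, pp_of_le (by linarith : x ≤ X z), pp_of_le (by linarith : x ≤ X q),
        pp_of_le (by linarith : x ≤ e2)]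
      ring
    rw [eU]
    rcases hshape with ⟨a, -⟩ | ⟨a, b, c, d, -⟩ | ⟨b, c, -⟩
    · rw [a, X0] at c1; linarith
    · rcases le_total x e1 with e | e
      · left; rw [b, pp_of_le e]; linarith
      · right
        refine cov_of x (X n) h1 (by rw [b, pp_of_ge e, c]; ring) fun y hy => ?_
        obtain ⟨r1, r2⟩ := hR x y h0 h1 hy
        refine ⟨not_lt.1 fun hyx => ?_, r1⟩
        have := r2 fun w hw => by
          by_cases a : w ≤ p
          · simp only [hφ, a, if_true]; exact pp_mono (by linarith)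
          · by_cases b : q ≤ w
            · refine le_trans (le_of_eq ?_) (φ0 w y)
              simp only [hφ, a, b, if_true, if_false]
              exact pp_of_le (by linarith [hle q w b hw])
            · simp only [hφ, a, b, if_false, le_refl]
        simp only [hV, pp_of_le (by linarith : x ≤ X z), pp_of_le (by linarith : y ≤ X z)] at this
        have k : 0 < B * (X q - X z) / (X q - X p) :=
          div_pos (mul_pos z3 (by linarith)) (by linarith)
        nlinarith
    · left; rw [b, c, pp_of_le c1.le]; linarith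
  rcases lt_or_ge (X q) x with c2 | c2
  · have eU : U A0 e1 (X p) (X z) (X q) e2 x = μ - (X q - X p) - (x - X q) + pp (x - e2) := by
      rw [U, s1 x c1, pp_of_ge c1, pp_of_ge (by linarith : X z ≤ x), pp_of_ge c2.le]
      field_simp
      ring
    rw [eU]
    rcases hshape with ⟨a, -, -, b, -⟩ | ⟨a, -⟩ | ⟨-, -, b, c⟩
    · rw [a, X0, b]
      rcases le_total μ x with e | e
      · left; rw [pp_of_ge e]; linarith
      · right
        refine cov_of 0 x h0 (by rw [pp_of_le e]; ring) fun y hy => ?_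
        obtain ⟨r1, r2⟩ := hR x y h0 h1 hy
        refine ⟨hy.1, not_lt.1 fun hyx => ?_⟩
        have := r2 fun w hw => by
          by_cases a : w ≤ p
          · refine le_trans (le_of_eq ?_) (φ0 w y)
            simp only [hφ, a, if_true]
            exact pp_of_le (by linarith [hle w p a (by omega)])
          · by_cases b : q ≤ w
            · simp only [hφ, a, b, if_true, if_false]; exact pp_mono (by linarith)
            · simp only [hφ, a, b, if_false, le_refl]
        simp only [hV, pp_of_ge (by linarith : X z ≤ x), pp_of_ge (by linarith : X z ≤ y)] at this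
        have k : B * (X q - X z) / (X q - X p) < B := by
          rw [div_lt_iff₀ (by linarith)]
          exact mul_lt_mul_of_pos_left (by linarith) z3
        nlinarith
    · rw [a] at c2; linarith
    · left; rw [b, pp_of_ge c2.le]; linarith
  right
  have mid : ∀ y, RankRel g h x y → V y ≤ V x := fun y hy => (hR x y h0 h1 hy).2 fun w hw => by
    refine le_trans (le_of_eq ?_) (φ0 w y)
    by_cases a : w ≤ p
    · simp only [hφ, a, if_true]
      exact pp_of_le (by linarith [hle w p a (by omega)])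
    · by_cases b : q ≤ w
      · simp only [hφ, a, b, if_true, if_false]
        exact pp_of_le (by linarith [hle q w b hw])
      · simp only [hφ, a, b, if_false]
  rcases le_total x (X z) with c3 | c3
  · have eU : μ - U A0 e1 (X p) (X z) (X q) e2 x = (X q - X p) * (X z - x) / (X z - X p) := by
      rw [U, s1 x c1, pp_of_ge c1, pp_of_le c3, pp_of_le c2, pp_of_le (c2.trans s2)]
      field_simp
      ring
    rw [eU]
    exact (hVs.left x1 x2 c1 c3).mono mid
  · have eU : μ - U A0 e1 (X p) (X z) (X q) e2 x = (X q - X p) * (x - X z) / (X q - X z) := by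
      rw [U, s1 x c1, pp_of_ge c1, pp_of_ge c3, pp_of_le c2, pp_of_le (c2.trans s2)]
      field_simp
      ring
    rw [eU]
    exact (hVs.right x1 x2 c3 c2).mono mid

theorem cov_left {P : ℕ} (c μ : ℝ) (g : ℝ → Fin (P + 2) → ℝ) (hwall : ∀ x, g x 0 = pp (x - c))
    (h1 : ∀ x, g x 1 = 0) : ∃ h : Fin (P + 2) → ℝ, ∀ x, 0 ≤ x → x ≤ c →
      U μ 0 0 0 0 μ x ≤ 0 ∨ Cov (RankRel g h x) (μ - U μ 0 0 0 0 μ x) := by
  refine ⟨fun j => if j = 1 then 1 else 0, fun x h0 hx => ?_⟩
  have eU : U μ 0 0 0 0 μ x = μ - x + pp (x - μ) := by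
    rw [U, pp_of_ge h0]; ring
  rw [eU]
  rcases le_total μ x with e | e
  · left; rw [pp_of_ge e]; linarith
  · right
    refine cov_of 0 x h0 (by rw [pp_of_le e]; ring) fun y ⟨y0, hy⟩ => ⟨y0, ?_⟩
    have a0 := hy 0 fun j hj => absurd hj (Fin.not_lt_zero j)
    have a1 := hy 1 fun j hj => by
      rw [Shape.lt_one hj]
      refine le_antisymm a0 ?_
      simp only [hwall, pp_of_le hx, Fin.zero_eq_one_iff]
      simpa using pp_nonneg _
    simpa [h1] using a1

theorem cov_right {P : ℕ} (c μ : ℝ) (g : ℝ → Fin (P + 2) → ℝ) (hwall : ∀ x, g x 0 = pp (x - c))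
    (h1 : ∀ x, g x 1 = 0) : ∃ h : Fin (P + 2) → ℝ, ∀ x, 0 ≤ x → x ≤ c →
      U 0 (c - μ) c c c c x ≤ 0 ∨ Cov (RankRel g h x) (μ - U 0 (c - μ) c c c c x) := by
  refine ⟨fun j => if j = 1 then -1 else 0, fun x h0 hx => ?_⟩
  have eU : U 0 (c - μ) c c c c x = pp (x - (c - μ)) := by
    rw [U, pp_of_le hx]; ring
  rw [eU]
  rcases le_total x (c - μ) with e | e
  · left; rw [pp_of_le e]
  · right
    refine cov_of x c hx (by rw [pp_of_ge e]; ring) fun y ⟨y0, hy⟩ => ?_
    have a0 := hy 0 fun j hj => absurd hj (Fin.not_lt_zero j)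
    have a1 := hy 1 fun j hj => by
      rw [Shape.lt_one hj]
      refine le_antisymm a0 ?_
      simp only [hwall, pp_of_le hx, Fin.zero_eq_one_iff]
      simpa using pp_nonneg _
    refine ⟨by simpa [h1] using a1, ?_⟩
    have a2 : pp (y - c) ≤ 0 := by simpa [hwall, pp_of_le hx] using a0
    linarith [le_pp (y - c)]

theorem cov_tri {P : ℕ} (c : ℝ) (g : ℝ → Fin (P + 2) → ℝ) (hwall : ∀ x, g x 0 = pp (x - c))
    (h1 : ∀ x, g x 1 = 0) : ∃ h : Fin (P + 2) → ℝ, ∀ x, c ≤ x → Cov (RankRel g h x) (x - c) := by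
  refine ⟨fun j => if j = 1 then 1 else -1, fun x hx => ?_⟩
  refine cov_of c x hx rfl fun y ⟨y0, hy⟩ => ?_
  have a0 := hy 0 fun j hj => absurd hj (Fin.not_lt_zero j)
  have a2 : -y + pp (y - c) ≤ -x + (x - c) := by simpa [hwall, pp_of_ge hx] using a0
  have a3 : c ≤ y := by linarith [pp_nonneg (y - c)]
  have a1 := hy 1 fun j hj => by
    rw [Shape.lt_one hj]
    simp [hwall, pp_of_ge hx, pp_of_ge a3]
    ring
  exact ⟨a3, by simpa [h1] using a1⟩

end Pool.Agent.P.MP_8707bd_ag.All
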