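import Mathlib
import Pool.Agent.P.MP_8707bd_ag.All.Cont
import Pool.Agent.P.MP_8707bd_ag.All.Shape

/-!
Groups of points described by nodes, and their kink coefficients (helper file only).
-/

namespace Pool.Agent.P.MP_8707bd_ag.All

open Row Irr

/-- A group of points: size, nodes of the profile, vertex of the tree, and the two coefficients
of the number of points. -/
structure Ty where
  mu : ℕ
  p : ℕ
  z : ℕ
  q : ℕ
  e1 : ℕ
  e2 : ℕ
  v : ℕ
  A : ℚ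
  B : ℤ

/-- Indicator of equality. -/
def ind {F : Type} [Field F] (a b : ℕ) : F := if a = b then 1 else 0

/-- The kink of the profile at node `w`. -/
def kap {F : Type} [Field F] (X : ℕ → F) (t : Ty) (w : ℕ) : F :=
  ind t.e1 w - ind t.p w - ind t.q w + ind t.e2 w +
    (ind t.p w - ind t.z w) * ((X t.q - X t.p) * (X t.z - X t.p)⁻¹) +
    (ind t.q w - ind t.z w) * ((X t.q - X t.p) * (X t.q - X t.z)⁻¹)

/-- The value of the profile at `0`. -/
def a0 {F : Type} [Field F] (X : ℕ → F) (t : Ty) : F := if t.p = 0 then t.mu - X t.q else 0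

/-- The profile. -/
noncomputable def prof (X : ℕ → ℝ) (t : Ty) (x : ℝ) : ℝ :=
  U (a0 X t) (X t.e1) (X t.p) (X t.z) (X t.q) (X t.e2) x

/-- The node `w` does not occur in the profile. -/
def Ty.Away (t : Ty) (w : ℕ) : Prop := t.p ≠ w ∧ t.z ≠ w ∧ t.q ≠ w ∧ t.e1 ≠ w ∧ t.e2 ≠ w

/-- The three admissible shapes. -/
def Ty.Shape (t : Ty) (n : ℕ) (X : ℕ → ℝ) : Prop :=
  (t.p = 0 ∧ t.e1 = 0 ∧ X t.e2 = t.mu ∧ t.q ≤ t.e2 ∧ t.e2 ≤ n) ∨
  (t.p ≠ 0 ∧ t.q = n ∧ t.e2 = n ∧ X t.e1 = X n - t.mu ∧ t.e1 ≤ t.p) ∨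
  (t.p ≠ 0 ∧ t.p < t.q ∧ t.e1 = t.p ∧ t.e2 = t.q ∧ X t.q = X t.p + t.mu)

/-- The order of the nodes. -/
def Ty.Ord (t : Ty) (n : ℕ) : Prop :=
  (t.p = 0 ∧ t.z = 0 ∧ t.q = 0) ∨ (t.p = n ∧ t.z = n ∧ t.q = n) ∨ (t.p < t.z ∧ t.z < t.q ∧ t.q ≤ n)

lemma sum_ind (n a : ℕ) (ha : a ≤ n) (X : ℕ → ℝ) (x : ℝ) (hx : x ≤ X n) :
    ∑ w ∈ Finset.range n, ind a w * pp (x - X w) = pp (x - X a) := by
  rcases ha.lt_or_eq with h | h
  · rw [Finset.sum_eq_single a]
    · simp [ind]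
    · intro b _ hb; simp [ind, Ne.symm hb]
    · intro h1; exact absurd (Finset.mem_range.2 h) h1
  · subst h
    rw [pp_of_le hx]
    refine Finset.sum_eq_zero fun w hw => ?_
    have : a ≠ w := (Finset.mem_range.1 hw).ne'
    simp [ind, this]

lemma prof_eq {t : Ty} {n : ℕ} {X : ℕ → ℝ} (h1 : t.Shape n X) (h2 : t.Ord n) (x : ℝ)
    (hx : x ≤ X n) :
    prof X t x = a0 X t + ∑ w ∈ Finset.range n, kap X t w * pp (x - X w) := by
  have hp : t.p ≤ n := by rcases h2 with h | h | h <;> omega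
  have hz : t.z ≤ n := by rcases h2 with h | h | h <;> omega
  have hq : t.q ≤ n := by rcases h2 with h | h | h <;> omega
  have he1 : t.e1 ≤ n := by rcases h1 with h | h | h <;> omega
  have he2 : t.e2 ≤ n := by rcases h1 with h | h | h <;> omega
  rw [prof, U, ← sum_ind n _ hp X x hx, ← sum_ind n _ hz X x hx, ← sum_ind n _ hq X x hx,
    ← sum_ind n _ he1 X x hx, ← sum_ind n _ he2 X x hx]
  simp only [Finset.mul_sum, add_assoc, sub_eq_add_neg, ← Finset.sum_neg_distrib,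
    ← Finset.sum_add_distrib]
  congr 1
  refine Finset.sum_congr rfl fun w _ => ?_
  rw [kap]
  ring

lemma kap_away {t : Ty} {w : ℕ} (h : t.Away w) (X : ℕ → ℝ) : kap X t w = 0 := by
  obtain ⟨h1, h2, h3, h4, h5⟩ := h
  simp [kap, ind, h1, h2, h3, h4, h5]

lemma kap_nonneg {t : Ty} {n w : ℕ} {X : ℕ → ℝ} (hX : ∀ a b, a < b → b ≤ n → X a < X b)
    (h2 : t.Ord n) (w0 : 0 < w) (wn : w < n) (hz : t.z ≠ w) : 0 ≤ kap X t w := by
  have i1 : (0 : ℝ) ≤ ind t.e1 w := by unfold ind; split_ifs <;> norm_num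
  have i2 : (0 : ℝ) ≤ ind t.e2 w := by unfold ind; split_ifs <;> norm_num
  have i3 : (0 : ℝ) ≤ ind t.p w := by unfold ind; split_ifs <;> norm_num
  have i4 : (0 : ℝ) ≤ ind t.q w := by unfold ind; split_ifs <;> norm_num
  have i5 : (ind t.z w : ℝ) = 0 := if_neg hz
  rcases h2 with h | h | h
  · have j1 : (ind t.p w : ℝ) = 0 := if_neg (by omega)
    have j2 : (ind t.q w : ℝ) = 0 := if_neg (by omega)
    rw [kap, i5, j1, j2]; linarith
  · have j1 : (ind t.p w : ℝ) = 0 := if_neg (by omega)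
    have j2 : (ind t.q w : ℝ) = 0 := if_neg (by omega)
    rw [kap, i5, j1, j2]; linarith
  · have h3 := hX _ _ h.1 (by omega)
    have h4 := hX _ _ h.2.1 h.2.2
    have h5 : 1 ≤ (X t.q - X t.p) * (X t.z - X t.p)⁻¹ := by
      rw [← div_eq_mul_inv, one_le_div (by linarith)]; linarith
    have h6 : 1 ≤ (X t.q - X t.p) * (X t.q - X t.z)⁻¹ := by
      rw [← div_eq_mul_inv, one_le_div (by linarith)]; linarith
    rw [kap, i5]
    nlinarith [mul_nonneg i3 (sub_nonneg.2 h5), mul_nonneg i4 (sub_nonneg.2 h6)]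

/-- The covering property of one group, given the kinks of the price of its vertex. -/
lemma cov_ty {P : ℕ} (n : ℕ) (X : ℕ → ℝ) (X0 : X 0 = 0)
    (hX : ∀ a b, a < b → b ≤ n → X a < X b) (g : ℝ → Fin (P + 2) → ℝ) (C : Fin (P + 2) → ℝ)
    (K : ℕ → Fin (P + 2) → ℝ) (hwall : ∀ x, g x 0 = pp (x - X n)) (h1 : ∀ x, g x 1 = 0)
    (hK0 : ∀ w, K w 0 = 0)
    (hg : ∀ x, 0 ≤ x → x ≤ X n → ∀ j,
      g x j = C j + ∑ w ∈ Finset.range n, K w j * pp (x - X w))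
    (hK : ∀ w, 0 < w → w < n → LexLe 0 (K w)) (hn : 0 < n) (t : Ty) (s1 : t.Shape n X)
    (s2 : t.Ord n)
    (s3 : t.p < t.z → t.z < t.q → ∃ i : Fin (P + 2),
      (∀ j, j < i → ∀ w, t.p < w → w < t.q → K w j = 0) ∧
      (∀ w, t.p < w → w < t.q → w ≠ t.z → K w i = 0) ∧ 0 < K t.z i) :
    ∃ h : Fin (P + 2) → ℝ, ∀ x, 0 ≤ x → x ≤ X n →
      prof X t x ≤ 0 ∨ Cov (RankRel g h x) (t.mu - prof X t x) := by
  have hle : ∀ a b, a ≤ b → b ≤ n → X a ≤ X b := fun a b h h' => by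
    rcases h.lt_or_eq with h | h
    · exact (hX a b h h').le
    · rw [h]
  rcases s2 with ⟨a1, a2, a3⟩ | ⟨a1, a2, a3⟩ | ⟨a1, a2, a3⟩
  · rcases s1 with ⟨-, b2, b3, -, -⟩ | b | b
    · have := cov_left (X n) t.mu g hwall h1
      simpa only [prof, a0, a1, a2, a3, b2, b3, X0, if_true, sub_zero] using this
    · exact absurd a1 b.1
    · exact absurd a1 b.1
  · rcases s1 with b | ⟨b1, -, b3, b4, -⟩ | b
    · omega
    · have := cov_right (X n) t.mu g hwall h1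
      have b0 : a0 X t = 0 := if_neg b1
      simpa only [prof, b0, a1, a2, a3, b3, b4] using this
    · omega
  · obtain ⟨i, z1, z2, z3⟩ := s3 a1 a2
    refine cov_tent n X X0 hX g C K hwall hK0 hg hK _ _ _ a1 a2 a3 i z1 z2 z3 _ _ _ _ ?_
    rcases s1 with ⟨b1, b2, b3, b4, b5⟩ | ⟨b1, b2, b3, b4, b5⟩ | ⟨b1, -, b3, b4, b5⟩
    · exact Or.inl ⟨b1, if_pos b1, by rw [b2, X0], b3, b3 ▸ hle _ _ b4 b5⟩
    · exact Or.inr (Or.inl ⟨b2, if_neg b1, b4, hle _ _ b5 (by omega), by rw [b3]⟩)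
    · exact Or.inr (Or.inr ⟨if_neg b1, by rw [b3], by rw [b4], b5⟩)

/-- The inequality of Nagata for a square number of points. -/
lemma square (k m : ℕ) : ∃ Q : Fin (k ^ 2) → Fin 2 → HL, Emp Q (fun _ => m) (k * m) := by
  rcases Nat.eq_zero_or_pos (k * m) with h0 | h0
  · exact ⟨fun _ _ => 0, fun F h _ => absurd h (by omega)⟩
  have hk : 0 < k := Nat.pos_of_mul_pos_right h0
  obtain ⟨d, hd⟩ : ∃ d, k * m = d + 1 := ⟨k * m - 1, by omega⟩
  obtain ⟨P, hP⟩ := cont_tree (ι := Unit) k hk 1 (p := 1) 1 one_pos (fun _ => k ^ 2) (fun _ => 1)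
    (fun _ => 0) (fun _ => one_pos) (fun _ => 0) (fun _ _ _ => by omega) (fun _ => 0)
    (fun _ _ _ => one_pos) (fun _ _ _ => 0) (fun _ _ => 0) (fun _ _ _ => by omega)
    (fun _ _ => 1) (fun _ x => 1 - x)
    (fun _ x h0 _ => Or.inr (cov_of 0 x h0 (by simp) fun y hy =>
      ⟨hy.1, by simpa using hy.2 0 (fun j hj => absurd hj (by simp))⟩))
    (fun x _ _ => by simp) (fun _ _ _ => by omega) m d (by
      have : ((k * m : ℕ) : ℝ) = d + 1 := by exact_mod_cast hd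
      push_cast at this
      linarith)
  refine ⟨fun a => P ⟨(), a⟩, ?_⟩
  rw [hd]
  have := hP.reindex (Equiv.uniqueSigma (fun _ : Unit => Fin (k ^ 2))).symm
  simpa using this

end Pool.Agent.P.MP_8707bd_ag.All
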