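import Mathlib
import Pool.Agent.P.MP_8707bd_ag.All.Defs
import Pool.Agent.P.MP_8707bd_ag.Defs
import Pool.Agent.P.MP_8707bd_ag.RowA
import Pool.Agent.P.MP_8707bd_ag.RowB

/-!
From affine emptiness over an extension field to emptiness at general complex points
(helper file only).
-/

namespace Pool.Agent.P.MP_8707bd_ag.All

open MvPolynomial

/-- Exponents of the monomials of degree `d` in three variables. -/
abbrev TCol (d : ℕ) : Type :=
  {n : Fin 3 →₀ ℕ // n ∈ Finset.finsuppAntidiag (Finset.univ : Finset (Fin 3)) d}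

/-- Indices of the vanishing conditions. -/
abbrev TRow {r : ℕ} (μ : Fin r → ℕ) : Type := Σ i : Fin r, Fin 3 → Fin (μ i)

/-- The exponent attached to a row. -/
noncomputable def tExp {r : ℕ} {μ : Fin r → ℕ} (ρ : TRow μ) : Fin 3 →₀ ℕ :=
  Finsupp.equivFunOnFinite.symm fun k => (ρ.2 k : ℕ)

/-- The matrix of the vanishing conditions. -/
noncomputable def tMat {A : Type} [CommRing A] {r : ℕ} (q : Fin r → Fin 3 → A) (μ : Fin r → ℕ)
    (d : ℕ) : Matrix (TRow μ) (TCol d) A :=
  fun ρ n => if (tExp ρ).degree < μ ρ.1 then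
    (tr (q ρ.1) (monomial n.1 (1 : A))).coeff (tExp ρ) else 0

/-- The form with prescribed coefficients. -/
noncomputable def tForm {A : Type} [CommRing A] {d : ℕ} (c : TCol d → A) :
    MvPolynomial (Fin 3) A := ∑ n : TCol d, monomial n.1 (c n)

lemma tr_map {σ A B : Type} [CommRing A] [CommRing B] (f : A →+* B) (q : σ → A)
    (F : MvPolynomial σ A) :
    MvPolynomial.map f (tr q F) = tr (fun k => f (q k)) (MvPolynomial.map f F) := by
  induction F using MvPolynomial.induction_on with
  | C a => simp [tr]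
  | add p q hp hq => simp [hp, hq]
  | mul_X p k hp =>
    rw [map_mul, map_mul, map_mul, map_mul, hp]
    simp [tr]

lemma tMat_map {A B : Type} [CommRing A] [CommRing B] (f : A →+* B) {r : ℕ}
    (q : Fin r → Fin 3 → A) (μ : Fin r → ℕ) (d : ℕ) :
    (tMat q μ d).map f = tMat (fun i k => f (q i k)) μ d := by
  ext ρ n
  simp only [tMat, Matrix.map_apply]
  split_ifs with h
  · rw [← MvPolynomial.coeff_map, tr_map, MvPolynomial.map_monomial, map_one]
  · simp

lemma tMat_mulVec {A : Type} [CommRing A] {r : ℕ} (q : Fin r → Fin 3 → A) (μ : Fin r → ℕ)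
    (d : ℕ) (c : TCol d → A) (ρ : TRow μ) :
    (tMat q μ d).mulVec c ρ = if (tExp ρ).degree < μ ρ.1 then
      (tr (q ρ.1) (tForm c)).coeff (tExp ρ) else 0 := by
  simp only [Matrix.mulVec, dotProduct, tMat, tForm]
  split_ifs with h
  · rw [map_sum, MvPolynomial.coeff_sum]
    refine Finset.sum_congr rfl fun n _ => ?_
    have : (monomial n.1 (c n) : MvPolynomial (Fin 3) A) = c n • monomial n.1 (1 : A) := by
      rw [MvPolynomial.smul_monomial, smul_eq_mul, mul_one]
    rw [this, map_smul, MvPolynomial.coeff_smul, smul_eq_mul, mul_comm]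
  · simp

lemma tMat_van {A : Type} [CommRing A] {r : ℕ} (q : Fin r → Fin 3 → A) (μ : Fin r → ℕ)
    (d : ℕ) (c : TCol d → A) :
    (tMat q μ d).mulVec c = 0 ↔ ∀ i, tForm c ∈ RingHom.ker (eval (q i)) ^ μ i := by
  constructor
  · intro h i
    rw [van_iff]
    intro s hs
    have hk : ∀ k, s k < μ i := fun k => lt_of_le_of_lt (Finsupp.le_degree k s) hs
    have h1 := congrFun h ⟨i, fun k => ⟨s k, hk k⟩⟩
    have h2 : tExp (μ := μ) ⟨i, fun k => ⟨s k, hk k⟩⟩ = s := by
      ext k
      simp [tExp]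
    rw [tMat_mulVec, h2, if_pos hs] at h1
    exact h1
  · intro h
    ext ρ
    rw [tMat_mulVec]
    split_ifs with h1
    · exact (van_iff _ _ _).1 (h ρ.1) _ h1
    · rfl

lemma tCol_sum {d : ℕ} (n : TCol d) : n.1 0 + n.1 1 + n.1 2 = d := by
  have := (Finset.mem_finsuppAntidiag.1 n.2).1
  rwa [Fin.sum_univ_three] at this

/-- The exponent after setting the last variable equal to one. -/
noncomputable def tRes (n : Fin 3 →₀ ℕ) : Fin 2 →₀ ℕ :=
  Finsupp.single 0 (n 0) + Finsupp.single 1 (n 1)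

lemma tRes_inj {d : ℕ} {n n' : TCol d} (h : tRes n.1 = tRes n'.1) : n = n' := by
  have h0 : n.1 0 = n'.1 0 := by simpa [tRes] using congrArg (fun s : Fin 2 →₀ ℕ => s 0) h
  have h1 : n.1 1 = n'.1 1 := by simpa [tRes] using congrArg (fun s : Fin 2 →₀ ℕ => s 1) h
  have h2 := tCol_sum n
  have h3 := tCol_sum n'
  refine Subtype.ext ?_
  ext k
  fin_cases k
  · exact h0
  · exact h1
  · change n.1 2 = n'.1 2
    omega

lemma dehom_monomial {K : Type} [CommRing K] (n : Fin 3 →₀ ℕ) (c : K) :
    MvPolynomial.aeval (![X 0, X 1, 1] : Fin 3 → MvPolynomial (Fin 2) K) (monomial n c) =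
      monomial (tRes n) c := by
  rw [MvPolynomial.aeval_monomial, Finsupp.prod_fintype _ _ (by simp), Fin.prod_univ_three, tRes,
    MvPolynomial.monomial_add_single, MvPolynomial.monomial_eq,
    Finsupp.prod_single_index (by simp)]
  simp [mul_assoc]

lemma inj_of_emp {K : Type} [Field K] {r : ℕ} (P : Fin r → Fin 2 → K)
    (μ : Fin r → ℕ) (d : ℕ) (h : Emp P μ (d + 1)) (c : TCol d → K)
    (hc : (tMat (fun i => ![P i 0, P i 1, 1]) μ d).mulVec c = 0) : c = 0 := by
  classical
  rw [tMat_van] at hc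
  set D : MvPolynomial (Fin 3) K →ₐ[K] MvPolynomial (Fin 2) K :=
    MvPolynomial.aeval ![X 0, X 1, 1] with hD
  have hf : D (tForm c) = ∑ n : TCol d, monomial (tRes n.1) (c n) := by
    rw [tForm, map_sum]
    exact Finset.sum_congr rfl fun n _ => dehom_monomial _ _
  have h0 : D (tForm c) = 0 := by
    refine h _ ?_ fun i => ?_
    · rw [hf, Nat.lt_succ_iff]
      refine MvPolynomial.totalDegree_finsetSum_le fun n _ => ?_
      refine (MvPolynomial.totalDegree_monomial_le _ _).trans ?_
      have := tCol_sum n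
      rw [Finsupp.sum_fintype _ _ (by simp), Fin.sum_univ_two]
      simp [tRes]
      omega
    · refine pow_map_mem (D : MvPolynomial (Fin 3) K →+* MvPolynomial (Fin 2) K) _ _
        (fun a ha => ?_) _ _ (hc i)
      have h1 : (eval (P i)).comp (D : MvPolynomial (Fin 3) K →+* MvPolynomial (Fin 2) K) =
          eval ![P i 0, P i 1, 1] := by
        ext1
        · ext a; simp [hD]
        · rename_i k
          fin_cases k <;> simp [hD]
      have h2 := congrArg (fun f : MvPolynomial (Fin 3) K →+* K => f a) h1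
      exact h2.trans ha
  funext n0
  have h3 := congrArg (MvPolynomial.coeff (tRes n0.1)) (hf.symm.trans h0)
  rw [MvPolynomial.coeff_sum, Finset.sum_eq_single n0] at h3
  · simpa using h3
  · intro n _ hne
    rw [MvPolynomial.coeff_monomial, if_neg fun h4 => hne (tRes_inj h4)]
  · intro h4
    exact absurd (Finset.mem_univ _) h4

lemma tForm_coeff {A : Type} [CommRing A] {d : ℕ} (F : MvPolynomial (Fin 3) A)
    (hF : F.IsHomogeneous d) : tForm (fun n : TCol d => F.coeff n.1) = F := by
  classical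
  rw [tForm, Finset.sum_coe_sort (Finset.finsuppAntidiag (Finset.univ : Finset (Fin 3)) d)
    (fun n => monomial n (F.coeff n))]
  conv_rhs => rw [F.as_sum]
  symm
  refine Finset.sum_subset (fun m hm => ?_) fun m _ hm => ?_
  · rw [Finset.mem_finsuppAntidiag]
    refine ⟨?_, Finset.subset_univ _⟩
    have := hF (MvPolynomial.mem_support_iff.1 hm)
    rw [← this, Finsupp.weight_apply, Finsupp.sum_fintype _ _ (by simp)]
    simp
  · rw [MvPolynomial.notMem_support_iff.1 hm, map_zero]

theorem transfer {K : Type} [Field K] [Algebra ℂ K] {r : ℕ} (P : Fin r → Fin 2 → K)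
    (μ : Fin r → ℕ) (d : ℕ) (h : Emp P μ (d + 1)) :
    ∃ Φ : MvPolynomial (Fin r × Fin 3) ℂ, Φ ≠ 0 ∧ ∀ p : Fin r → Fin 3 → ℂ,
      MvPolynomial.eval (fun ij : Fin r × Fin 3 => p ij.1 ij.2) Φ ≠ 0 → fat p μ d = ⊥ := by
  classical
  obtain ⟨g, hg⟩ := Row.exists_minor _ (inj_of_emp P μ d h)
  set M0 : Matrix (TRow μ) (TCol d) (MvPolynomial (Fin r × Fin 3) ℂ) :=
    tMat (fun i k => X (i, k)) μ d with hM0
  have key : ∀ {B : Type} [CommRing B] (f : MvPolynomial (Fin r × Fin 3) ℂ →+* B),
      f (M0.submatrix g id).det =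
        ((tMat (fun i k => f (X (i, k))) μ d).submatrix g id).det := by
    intro B _ f
    rw [RingHom.map_det, ← tMat_map]
    rfl
  refine ⟨(M0.submatrix g id).det, fun h0 => hg ?_, fun p hp => ?_⟩
  · have h1 := key (MvPolynomial.eval₂Hom (algebraMap ℂ K) (fun ij : Fin r × Fin 3 =>
      (![P ij.1 0, P ij.1 1, 1] : Fin 3 → K) ij.2))
    rw [h0, map_zero] at h1
    simpa using h1.symm
  · rw [key] at hp
    simp only [MvPolynomial.eval_X] at hp
    rw [eq_bot_iff]
    intro F hF
    obtain ⟨hF1, hF2⟩ := Submodule.mem_inf.1 hF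
    rw [MvPolynomial.mem_homogeneousSubmodule] at hF1
    rw [Submodule.restrictScalars_mem, Submodule.mem_iInf] at hF2
    have h2 := tForm_coeff F hF1
    have h3 : (tMat p μ d).mulVec (fun n : TCol d => F.coeff n.1) = 0 := by
      rw [tMat_van, h2]
      intro i
      refine Ideal.pow_right_mono ?_ _ (hF2 i)
      unfold ptIdeal
      rw [Ideal.span_le]
      intro L hL
      exact hL.2
    have h4 := Row.inj_of_minor _ g hp _ h3
    rw [h4] at h2
    rw [Submodule.mem_bot, ← h2]
    simp [tForm]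

end Pool.Agent.P.MP_8707bd_ag.All
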