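import Mathlib
import Pool.Agent.P.MP_8707bd_ag.All.Kink
import Pool.Agent.P.MP_8707bd_ag.All.Glue
import Pool.Agent.P.MP_8707bd_ag.All.Transfer

/-!
The criterion for a design on a tree of depth two (helper file only).
-/

namespace Pool.Agent.P.MP_8707bd_ag.All

open Row Irr

/-- Vertex `v` is the vertex `k` or one of its children. -/
abbrev Below (par : ℕ → ℕ) (k v : ℕ) : Prop := v = k ∨ par v = k

/-- The combinatorial conditions on the tree and on the levels. -/
structure Tree (n s P : ℕ) (par lev rl : ℕ → ℕ) : Prop where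
  n0 : 0 < n
  s0 : 0 < s
  par0 : par 0 = 0
  vert : ∀ k, 0 < k → k < s → par k < k ∧ par (par k) = 0 ∧ 2 ≤ lev k ∧ lev k < P + 2 ∧
    (par k = 0 ∨ lev k < lev (par k)) ∧ ∀ w, 0 < w → w < n → lev k ≠ rl w
  node : ∀ w, 0 < w → w < n → 2 ≤ rl w ∧ rl w < P + 2

/-- The level of a group is a level of the root or the level of its vertex. -/
def Level {ι : Type} (ty : ι → Ty) (par lev rl : ℕ → ℕ) (t : Ty) : Prop :=
  ((∀ w, t.p < w → w < t.q → w ≠ t.z → rl t.z < rl w) ∧ (t.v = 0 ∨ rl t.z < lev t.v)) ∨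
  (t.v ≠ 0 ∧ (∀ w, t.p < w → w < t.q → lev t.v < rl w) ∧
    ∀ w, t.p < w → w < t.q → w ≠ t.z → ∀ u, Below par t.v (ty u).v → (ty u).Away w)

/-- The sum of `f` over the groups below vertex `k`. -/
noncomputable def below {ι : Type} [Fintype ι] (ty : ι → Ty) (par : ℕ → ℕ) (f : ι → ℝ) (k : ℕ) :
    ℝ := ∑ u, if Below par k (ty u).v then f u else 0

/-- The price level `i` at vertex `k`. -/
noncomputable def lvl (par lev : ℕ → ℕ) (E : ℕ → ℝ) (k i : ℕ) : ℝ :=
  (if k ≠ 0 ∧ i = lev k then E k else 0) + if par k ≠ 0 ∧ i = lev (par k) then E (par k) else 0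

section
variable {ι : Type} [Fintype ι] {ty : ι → Ty} {n s P : ℕ} {par lev rl : ℕ → ℕ}

lemma below_root (T : Tree n s P par lev rl) (hv : ∀ u, (ty u).v < s) (f : ι → ℝ) :
    (∑ u, if (ty u).v = 0 then f u else 0) +
      (∑ k ∈ Finset.Ioo 0 s, if par k = 0 then below ty par f k else 0) = ∑ u, f u := by
  have h1 : ∀ k, (if par k = 0 then below ty par f k else 0) =
      ∑ u, if par k = 0 ∧ Below par k (ty u).v then f u else 0 := by
    intro k
    by_cases h : par k = 0 <;> simp [h, below]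
  simp only [h1]
  rw [Finset.sum_comm, ← Finset.sum_add_distrib]
  refine Finset.sum_congr rfl fun u _ => ?_
  have h2 := hv u
  by_cases h0 : (ty u).v = 0
  · rw [if_pos h0, Finset.sum_eq_zero, add_zero]
    intro k hk
    have := Finset.mem_Ioo.1 hk
    have := T.par0
    refine if_neg ?_
    rw [h0]
    rintro ⟨-, h | h⟩ <;> omega
  · obtain ⟨h3, h4, -⟩ := T.vert _ (Nat.pos_of_ne_zero h0) h2
    rw [if_neg h0, zero_add]
    by_cases h5 : par (ty u).v = 0
    · rw [Finset.sum_eq_single (ty u).v]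
      · exact if_pos ⟨h5, Or.inl rfl⟩
      · intro k hk hne
        have := Finset.mem_Ioo.1 hk
        refine if_neg ?_
        rintro ⟨-, h | h⟩ <;> omega
      · intro h; exact absurd (Finset.mem_Ioo.2 ⟨by omega, h2⟩) h
    · rw [Finset.sum_eq_single (par (ty u).v)]
      · exact if_pos ⟨h4, Or.inr rfl⟩
      · intro k hk hne
        refine if_neg ?_
        rintro ⟨h6, h | h⟩
        · rw [← h] at h6; exact h5 h6
        · exact hne h.symm
      · intro h; exact absurd (Finset.mem_Ioo.2 ⟨by omega, by omega⟩) h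

lemma below_vert (T : Tree n s P par lev rl) (hv : ∀ u, (ty u).v < s) (f : ι → ℝ) (k : ℕ)
    (k0 : 0 < k) :
    (∑ u, if (ty u).v = k then f u else 0) +
      (∑ k' ∈ Finset.Ioo 0 s, if par k' = k then below ty par f k' else 0) =
      below ty par f k := by
  have h1 : ∀ k', (if par k' = k then below ty par f k' else 0) =
      ∑ u, if par k' = k ∧ Below par k' (ty u).v then f u else 0 := by
    intro k'
    by_cases h : par k' = k <;> simp [h, below]
  simp only [h1]
  rw [Finset.sum_comm, ← Finset.sum_add_distrib, below]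
  refine Finset.sum_congr rfl fun u _ => ?_
  have h2 := hv u
  have h7 := T.par0
  have h3 : par (par (ty u).v) = 0 := by
    by_cases h0 : (ty u).v = 0
    · rw [h0, h7, h7]
    · exact (T.vert _ (Nat.pos_of_ne_zero h0) h2).2.1
  by_cases h5 : par (ty u).v = k
  · have h0 : (ty u).v ≠ 0 := fun h => by rw [h] at h5; omega
    have h4 := (T.vert _ (Nat.pos_of_ne_zero h0) h2).1
    rw [if_neg (by omega), zero_add, if_pos (Or.inr h5), Finset.sum_eq_single (ty u).v]
    · exact if_pos ⟨h5, Or.inl rfl⟩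
    · intro k' _ hne
      refine if_neg ?_
      rintro ⟨h6, h | h⟩
      · exact hne h.symm
      · rw [← h] at h6; omega
    · intro h; exact absurd (Finset.mem_Ioo.2 ⟨by omega, h2⟩) h
  · rw [Finset.sum_eq_zero, add_zero]
    · simp only [Below, h5, or_false]
    · intro k' _
      refine if_neg ?_
      rintro ⟨h6, h | h⟩
      · rw [← h] at h6; exact h5 h6
      · rw [← h] at h6; omega

lemma lvl_low (T : Tree n s P par lev rl) (E : ℕ → ℝ) {k i : ℕ} (hk : k < s)
    (h : k = 0 ∨ i < lev k) : lvl par lev E k i = 0 := by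
  have h0 := T.par0
  by_cases k0 : k = 0
  · simp [lvl, k0, h0]
  · have := T.vert k (Nat.pos_of_ne_zero k0) hk
    rw [lvl, if_neg (by omega), if_neg (by omega), add_zero]

lemma lvl_two (T : Tree n s P par lev rl) (E : ℕ → ℝ) {k i : ℕ} (hk : k < s) (h : i < 2) :
    lvl par lev E k i = 0 := by
  by_cases k0 : k = 0
  · exact lvl_low T E hk (Or.inl k0)
  · have := T.vert k (Nat.pos_of_ne_zero k0) hk
    exact lvl_low T E hk (Or.inr (by omega))

lemma lvl_self (T : Tree n s P par lev rl) (E : ℕ → ℝ) {k : ℕ} (k0 : k ≠ 0) (hk : k < s) :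
    lvl par lev E k (lev k) = E k := by
  have := T.vert k (Nat.pos_of_ne_zero k0) hk
  rw [lvl, if_pos ⟨k0, rfl⟩, if_neg (by omega), add_zero]

lemma lvl_nonneg (T : Tree n s P par lev rl) (E : ℕ → ℝ) {k i : ℕ} (hk : k < s)
    (h : ∀ k', 0 < k' → k' < s → i = lev k' → 0 ≤ E k') : 0 ≤ lvl par lev E k i := by
  have h0 := T.par0
  by_cases k0 : k = 0
  · simp [lvl, k0, h0]
  · have := T.vert k (Nat.pos_of_ne_zero k0) hk
    refine add_nonneg ?_ ?_ <;> split_ifs with h1
    · exact h _ (by omega) hk h1.2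
    · exact le_rfl
    · exact h _ (by omega) (by omega) h1.2
    · exact le_rfl

lemma lvl_lin (c : ℕ → ℝ) (K : ℕ → ℕ → ℝ) (y : ℕ → ℝ) (k i : ℕ) :
    lvl par lev (fun k => c k + ∑ w ∈ Finset.range n, K w k * y w) k i =
      lvl par lev c k i + ∑ w ∈ Finset.range n, lvl par lev (K w) k i * y w := by
  simp only [lvl, add_mul, Finset.sum_add_distrib]
  split_ifs
  · ring
  all_goals simp

/-- Emptiness for the points of all sizes. -/
theorem design_emp (T : Tree n s P par lev rl) (X : ℕ → ℝ) (X0 : X 0 = 0)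
    (hX : ∀ a b, a < b → b ≤ n → X a < X b) (N : ι → ℕ) (j δ : ℕ) (hδ : 0 < δ)
    (hv : ∀ u, (ty u).v < s) (s1 : ∀ u, (ty u).Shape n X) (s2 : ∀ u, (ty u).Ord n)
    (s3 : ∀ u, (ty u).p < (ty u).z → (ty u).z < (ty u).q → Level ty par lev rl (ty u))
    (sup : ∀ k, 0 < k → k < s → ∀ w, 0 < w → w < n → lev k < rl w →
      (∀ u, Below par k (ty u).v → (ty u).z ≠ w) ∨
        0 < below ty par (fun u => N u * kap X (ty u) w) k)
    (eqk : ∀ w, w < n → ∑ u, N u * kap X (ty u) w = if w = 0 then -(δ : ℝ) ^ 2 else 0)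
    (eq0 : ∑ u, N u * a0 X (ty u) = (δ : ℝ) ^ 2 * (X n + j))
    (m d : ℕ) (hd : (d : ℝ) < δ * (X n + j) * m) :
    ∃ Q : (Σ t : Option ι, Fin (t.elim (δ ^ 2) N)) → Fin 2 → HL,
      Emp Q (fun a => a.1.elim j (fun u => (ty u).mu) * m) (d + 1) := by
  classical
  set ℓ : ι → ℝ → ℝ := fun u x => if x ≤ X n then prof X (ty u) x else 0 with hℓ
  set E : ℕ → ℝ → ℝ := fun k x => below ty par (fun u => N u * ℓ u x) k with hE
  set g : ℕ → ℝ → Fin (P + 2) → ℝ := fun k x i => (if (i : ℕ) = 0 then pp (x - X n) else 0) +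
    (∑ w ∈ Finset.range n, (if (0 < w ∧ w < n) ∧ rl w = i then 1 else 0) * pp (x - X w)) +
    lvl par lev (fun k => E k x) k i with hg
  set KE : ℕ → ℕ → ℝ := fun w k => below ty par (fun u => N u * kap X (ty u) w) k with hKE
  set K : ℕ → ℕ → Fin (P + 2) → ℝ := fun k w i =>
    (if (0 < w ∧ w < n) ∧ rl w = i then 1 else 0) + lvl par lev (KE w) k i with hK
  have low : ∀ k, k < s → ∀ x, ∀ i : Fin (P + 2), (i : ℕ) < 2 →
      g k x i = if (i : ℕ) = 0 then pp (x - X n) else 0 := by
    intro k hk x i hi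
    simp only [hg]
    rw [lvl_two T _ hk hi, Finset.sum_eq_zero, add_zero, add_zero]
    intro w hw
    have := T.node w
    rw [if_neg, zero_mul]
    have := Finset.mem_range.1 hw
    omega
  have hwall : ∀ k, k < s → ∀ x, g k x 0 = pp (x - X n) := fun k hk x => by
    rw [low k hk x 0 (by simp)]; simp
  have hfree : ∀ k, k < s → ∀ x, g k x 1 = 0 := fun k hk x => by
    rw [low k hk x 1 (by simp)]; simp
  have hEx : ∀ k x, x ≤ X n → E k x = below ty par (fun u => N u * a0 X (ty u)) k +
      ∑ w ∈ Finset.range n, KE w k * pp (x - X w) := by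
    intro k x hx
    simp only [hE, hKE, below, hℓ, if_pos hx, Finset.sum_mul]
    rw [Finset.sum_comm, ← Finset.sum_add_distrib]
    refine Finset.sum_congr rfl fun u _ => ?_
    split_ifs
    · rw [prof_eq (s1 u) (s2 u) x hx, mul_add, Finset.mul_sum]
      simp only [mul_assoc]
    · simp
  have hKE0 : ∀ k, 0 < k → k < s → ∀ w, 0 < w → w < n → lev k < rl w → 0 ≤ KE w k := by
    intro k k0 ks w w0 wn h
    rcases sup k k0 ks w w0 wn h with h1 | h1
    · refine Finset.sum_nonneg fun u _ => ?_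
      split_ifs with h2
      · exact mul_nonneg (Nat.cast_nonneg _) (kap_nonneg hX (s2 u) w0 wn (h1 u h2))
      · exact le_rfl
    · exact h1.le
  have cov : ∀ u, ∃ h : Fin (P + 2) → ℝ, ∀ x, 0 ≤ x → x ≤ X n →
      prof X (ty u) x ≤ 0 ∨ Cov (RankRel (g (ty u).v) h x) ((ty u).mu - prof X (ty u) x) := by
    intro u
    have hk := hv u
    set k := (ty u).v with hkv
    refine cov_ty n X X0 hX (g k)
      (fun i => lvl par lev (fun k => below ty par (fun u => N u * a0 X (ty u)) k) k i) (K k)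
      (hwall k hk) (hfree k hk) (fun w => ?_) (fun x _ hx i => ?_) (fun w w0 wn i hi => ?_) T.n0
      (ty u) (s1 u) (s2 u) fun a1 a2 => ?_
    · have := T.node w
      simp only [hK]
      rw [lvl_two T _ hk (by simp), add_zero]
      exact if_neg (by simp only [Fin.val_zero]; omega)
    · simp only [hg, hK, hEx _ x hx, lvl_lin, pp_of_le hx, ite_self, add_mul,
        Finset.sum_add_distrib]
      ring
    · have h1 := T.node w w0 wn
      by_cases h2 : rl w < i
      · have h3 := hi ⟨rl w, h1.2⟩ h2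
        have h4 : 0 ≤ lvl par lev (KE w) k (rl w) := lvl_nonneg T _ hk fun k' a b c =>
          absurd c.symm ((T.vert k' a b).2.2.2.2.2 w w0 wn)
        simp only [hK, Pi.zero_apply, w0, wn, true_and, if_true] at h3
        linarith
      · refine add_nonneg (by split_ifs <;> norm_num) (lvl_nonneg T _ hk fun k' a b c => ?_)
        have := (T.vert k' a b).2.2.2.2.2 w w0 wn
        exact hKE0 k' a b w w0 wn (by omega)
    · have hq : (ty u).q ≤ n := by rcases s2 u with h | h | h <;> omega
      have hz := T.node (ty u).z (by omega) (by omega)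
      rcases s3 u a1 a2 with ⟨b1, b2⟩ | ⟨b1, b2, b3⟩
      · refine ⟨⟨rl (ty u).z, hz.2⟩, fun i hi w w1 w2 => ?_, fun w w1 w2 w3 => ?_, ?_⟩
        · have hi' : (i : ℕ) < rl (ty u).z := hi
          have : rl (ty u).z ≤ rl w := by
            by_cases h : w = (ty u).z
            · rw [h]
            · exact (b1 w w1 w2 h).le
          simp only [hK]
          rw [if_neg (by omega), lvl_low T _ hk (b2.imp id fun h => lt_trans hi' h), add_zero]
        · have := b1 w w1 w2 w3
          simp only [hK]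
          rw [if_neg (by omega), lvl_low T _ hk b2, add_zero]
        · simp only [hK]
          rw [if_pos ⟨by omega, trivial⟩, lvl_low T _ hk b2]
          norm_num
      · have h1 := T.vert k (Nat.pos_of_ne_zero b1) hk
        refine ⟨⟨lev k, h1.2.2.2.1⟩, fun i hi w w1 w2 => ?_, fun w w1 w2 w3 => ?_, ?_⟩
        · have hi' : (i : ℕ) < lev k := hi
          have : lev k < rl w := b2 w w1 w2
          simp only [hK]
          rw [if_neg (by omega), lvl_low T _ hk (Or.inr hi'), add_zero]
        · have : lev k < rl w := b2 w w1 w2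
          simp only [hK]
          rw [if_neg (by omega), lvl_self T _ b1 hk, zero_add]
          refine Finset.sum_eq_zero fun u' _ => ?_
          split_ifs with h2
          · simp only [kap_away (b3 w w1 w2 w3 u' h2), mul_zero]
          · rfl
        · have h2 : lev k < rl (ty u).z := b2 _ a1 a2
          simp only [hK]
          rw [if_neg (by omega), lvl_self T _ b1 hk, zero_add]
          exact (sup k (by omega) hk _ (by omega) (by omega) h2).resolve_left
            fun h => h u (Or.inl rfl) rfl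
  choose h hh using cov
  obtain ⟨h', hh'⟩ := cov_tri (X n) (g 0) (hwall 0 T.s0) (hfree 0 T.s0)
  refine cont_tree δ hδ (X n + j) s T.s0 (fun t : Option ι => t.elim (δ ^ 2) N)
    (fun t => t.elim j fun u => (ty u).mu) (fun t => t.elim 0 fun u => (ty u).v) ?_ par
    (fun k a b => (T.vert k a b).1) lev (fun k a b => (T.vert k a b).2.2.2.1) g E ?_
    (fun t => t.elim h' h)
    (fun t x => t.elim (if x ≤ X n then 0 else X n + j - x) fun u => ℓ u x) ?_ ?_ ?_ m d hd
  · rintro (_ | u)
    · exact T.s0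
    · exact hv u
  · intro k k0 ks x i
    have h1 := T.vert k k0 ks
    simp only [hg, lvl, h1.2.1, ne_eq, not_true, false_and, if_false, k0.ne', not_false_iff,
      true_and]
    ring
  · rintro (_ | u) x h0 hx
    · simp only [Option.elim]
      split_ifs with h1
      · exact Or.inl le_rfl
      · right
        convert hh' x (not_le.1 h1).le using 1
        ring
    · simp only [Option.elim, hℓ]
      split_ifs with h1
      · exact hh u x h0 h1
      · exact Or.inl le_rfl
  · intro x h0 hx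
    rw [Fintype.sum_option, add_assoc]
    change _ ≤ (((δ ^ 2 : ℕ) : ℝ) * (if x ≤ X n then 0 else X n + j - x)) +
      ((∑ u, if (ty u).v = 0 then N u * ℓ u x else 0) + ∑ k ∈ Finset.Ioo 0 s,
        if par k = 0 then below ty par (fun u => N u * ℓ u x) k else 0)
    rw [below_root T hv]
    simp only [hℓ]
    split_ifs with h1
    · have h2 : ∀ u, N u * prof X (ty u) x = N u * a0 X (ty u) +
          ∑ w ∈ Finset.range n, N u * kap X (ty u) w * pp (x - X w) := fun u => by
        rw [prof_eq (s1 u) (s2 u) x h1, mul_add, Finset.mul_sum]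
        simp only [mul_assoc]
      simp only [h2, Finset.sum_add_distrib]
      rw [eq0, Finset.sum_comm, Finset.sum_eq_single 0]
      · rw [← Finset.sum_mul, eqk 0 T.n0, X0, pp_of_ge h0, if_pos rfl]
        exact le_of_eq (by ring)
      · intro w hw w0
        rw [← Finset.sum_mul, eqk w (Finset.mem_range.1 hw), if_neg w0, zero_mul]
      · intro h; exact absurd (Finset.mem_range.2 T.n0) h
    · simp
  · intro k k0 ks x h0 hx
    rw [Fintype.sum_option, add_assoc]
    rw [if_neg (by exact k0.ne), zero_add]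
    exact (below_vert T hv (fun u => N u * ℓ u x) k k0).ge

/-- Emptiness for general points of equal multiplicity. -/
theorem design (T : Tree n s P par lev rl) (X : ℕ → ℝ) (X0 : X 0 = 0)
    (hX : ∀ a b, a < b → b ≤ n → X a < X b) (N : ι → ℕ) (j δ : ℕ) (hδ : 0 < δ)
    (hv : ∀ u, (ty u).v < s) (s1 : ∀ u, (ty u).Shape n X) (s2 : ∀ u, (ty u).Ord n)
    (s3 : ∀ u, (ty u).p < (ty u).z → (ty u).z < (ty u).q → Level ty par lev rl (ty u))
    (sup : ∀ k, 0 < k → k < s → ∀ w, 0 < w → w < n → lev k < rl w →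
      (∀ u, Below par k (ty u).v → (ty u).z ≠ w) ∨
        0 < below ty par (fun u => N u * kap X (ty u) w) k)
    (eqk : ∀ w, w < n → ∑ u, N u * kap X (ty u) w = if w = 0 then -(δ : ℝ) ^ 2 else 0)
    (eq0 : ∑ u, N u * a0 X (ty u) = (δ : ℝ) ^ 2 * (X n + j))
    (r : ℕ) (hr : r = δ ^ 2 * j ^ 2 + ∑ u, N u * (ty u).mu ^ 2)
    (m d : ℕ) (hd : (d : ℝ) < δ * (X n + j) * m) :
    ∃ Φ : MvPolynomial (Fin r × Fin 3) ℂ, Φ ≠ 0 ∧ ∀ p : Fin r → Fin 3 → ℂ,
      MvPolynomial.eval (fun ij : Fin r × Fin 3 => p ij.1 ij.2) Φ ≠ 0 →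
      fat p (fun _ => m) d = ⊥ := by
  obtain ⟨Q, hQ⟩ := design_emp T X X0 hX N j δ hδ hv s1 s2 s3 sup eqk eq0 m d hd
  choose R hR using fun k => square k m
  obtain ⟨Q', hQ'⟩ := glue Q _ _ hQ
    (κ := fun a => Fin ((a.1.elim j fun u => (ty u).mu) ^ 2)) (fun a => R _) (fun _ _ => m)
    (fun a => hR _)
  have hc : Fintype.card (Σ a : (Σ t : Option ι, Fin (t.elim (δ ^ 2) N)),
      Fin ((a.1.elim j fun u => (ty u).mu) ^ 2)) = r := by
    rw [Fintype.card_sigma, Fintype.sum_sigma, Fintype.sum_option, hr]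
    simp only [Fintype.card_fin, Finset.sum_const, Finset.card_univ, smul_eq_mul]
    rfl
  exact transfer _ _ d (hQ'.reindex (Fintype.equivFinOfCardEq hc).symm)

end

end Pool.Agent.P.MP_8707bd_ag.All
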