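import Mathlib
import Pool.Agent.P.MP_8707bd_ag.All.Kink

/-!
Partial fractions: a finite check that the balance equations hold identically in the width
(helper file only).
-/

namespace Pool.Agent.P.MP_8707bd_ag.All

/-- The position of node `w` for the width `L`. -/
def pos {F : Type} [Field F] (al be : ℕ → ℚ) (L : F) (w : ℕ) : F := al w + be w * L

/-- The normalised number of points of a group for the width `L`. -/
def cnt {F : Type} [Field F] (L : F) (t : Ty) : F := t.A + t.B * L ^ 2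

/-- The sum over a list of groups. -/
def tot {F : Type} [Field F] (D : List Ty) (f : Ty → F) : F := (D.map f).sum

/-- Quotient (`i < 4`) and remainder (`i = 4`) of the cubic `c` divided by `a + b L`. -/
def pf (c0 c1 c2 c3 a b : ℚ) (i : ℕ) : ℚ :=
  if b = 0 then
    (if i = 0 then c0 / a else if i = 1 then c1 / a else if i = 2 then c2 / a else
      if i = 3 then c3 / a else 0)
  else
    (if i = 0 then (c1 + -a / b * (c2 + -a / b * c3)) / b else
      if i = 1 then (c2 + -a / b * c3) / b else if i = 2 then c3 / b else if i = 3 then 0 else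
      c0 + -a / b * (c1 + -a / b * (c2 + -a / b * c3)))

/-- Partial fraction data of the slope of group `t` over the edge from `a` to `b`. -/
def pt (al be : ℕ → ℚ) (t : Ty) (a b i : ℕ) : ℚ :=
  pf (t.A * (al t.q - al t.p)) (t.A * (be t.q - be t.p)) (t.B * (al t.q - al t.p))
    (t.B * (be t.q - be t.p)) (al b - al a) (be b - be a) i

/-- The polynomial part of the kink of group `t` at node `w`. -/
def coef (al be : ℕ → ℚ) (w i : ℕ) (t : Ty) : ℚ :=
  (ind t.e1 w - ind t.p w - ind t.q w + ind t.e2 w) *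
      (if i = 0 then t.A else if i = 2 then (t.B : ℚ) else 0) +
    (if t.p = w ∨ t.z = w then (ind t.p w - ind t.z w) * pt al be t t.p t.z i else 0) +
    (if t.q = w ∨ t.z = w then (ind t.q w - ind t.z w) * pt al be t t.z t.q i else 0)

/-- The residue of group `t` along the edge from `a` to `b`. -/
def res (al be : ℕ → ℚ) (a b : ℕ) (t : Ty) : ℚ :=
  (if t.p = a ∧ t.z = b then pt al be t t.p t.z 4 else 0) -
    if t.z = a ∧ t.q = b then pt al be t t.z t.q 4 else 0

/-- The coefficients of the value at `0`. -/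
def coef0 (al be : ℕ → ℚ) (i : ℕ) (t : Ty) : ℚ :=
  if t.p = 0 then
    (if i = 0 then t.A * (t.mu - al t.q) else if i = 1 then -(t.A * be t.q) else
      if i = 2 then t.B * (t.mu - al t.q) else -(t.B * be t.q))
  else 0

lemma tot_eq {F : Type} [Field F] (D : List Ty) (f : Ty → F) :
    tot D f = ∑ u : Fin D.length, f D[u.1] := (Fin.sum_univ_fun_getElem D f).symm

lemma tot_cast (D : List Ty) (f : Ty → ℚ) :
    ((tot D f : ℚ) : ℝ) = ∑ u : Fin D.length, (f D[u.1] : ℝ) := by
  rw [tot_eq, Rat.cast_sum]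

lemma pf_eq (c0 c1 c2 c3 a b : ℚ) (L : ℝ) (h : b ≠ 0 → (a : ℝ) + b * L ≠ 0) :
    ((c0 : ℝ) + c1 * L + c2 * L ^ 2 + c3 * L ^ 3) * ((a : ℝ) + b * L)⁻¹ =
      pf c0 c1 c2 c3 a b 0 + pf c0 c1 c2 c3 a b 1 * L + pf c0 c1 c2 c3 a b 2 * L ^ 2 +
        pf c0 c1 c2 c3 a b 3 * L ^ 3 + pf c0 c1 c2 c3 a b 4 * ((a : ℝ) + b * L)⁻¹ := by
  by_cases hb : b = 0
  · simp [pf, hb]
    ring
  · have h1 := h hb
    have h2 : (b : ℝ) ≠ 0 := by exact_mod_cast hb
    have h3 := mul_inv_cancel₀ h1
    have h4 := mul_inv_cancel₀ h2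
    simp [pf, hb, div_eq_mul_inv]
    set s := ((a : ℝ) + b * L)⁻¹
    set y := (b : ℝ)⁻¹
    linear_combination ((c1 + -(a * y) * (c2 + -(a * y) * c3)) * y +
      (c2 + -(a * y) * c3) * y * L + c3 * y * L ^ 2) * h3 -
      s * ((c1 + -(a * y) * (c2 + -(a * y) * c3)) * L + (c2 + -(a * y) * c3) * L ^ 2 +
        c3 * L ^ 3) * h4

lemma pt_eq (al be : ℕ → ℚ) (t : Ty) (a b : ℕ) (L : ℝ)
    (h : a ≠ b → pos al be L b - pos al be L a ≠ 0) :
    cnt L t * ((pos al be L t.q - pos al be L t.p) * (pos al be L b - pos al be L a)⁻¹) =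
      pt al be t a b 0 + pt al be t a b 1 * L + pt al be t a b 2 * L ^ 2 +
        pt al be t a b 3 * L ^ 3 + pt al be t a b 4 * (pos al be L b - pos al be L a)⁻¹ := by
  have h1 : pos al be L b - pos al be L a = ((al b - al a : ℚ) : ℝ) + ((be b - be a : ℚ) : ℝ) * L := by
    simp only [pos]; push_cast; ring
  simp only [pt]
  rw [h1, ← pf_eq _ _ _ _ _ _ L (fun h2 => by
    rw [← h1]
    exact h fun h3 => h2 (by rw [h3, sub_self]))]
  simp only [cnt, pos]
  push_cast
  ring

lemma ind_cast (a b : ℕ) : ((ind a b : ℚ) : ℝ) = ind a b := by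
  unfold ind; split_ifs <;> simp

lemma kap_pf (al be : ℕ → ℚ) (t : Ty) (w : ℕ) (L : ℝ)
    (h1 : t.p ≠ t.z → pos al be L t.z - pos al be L t.p ≠ 0)
    (h2 : t.z ≠ t.q → pos al be L t.q - pos al be L t.z ≠ 0) :
    cnt L t * kap (pos al be L) t w =
      coef al be w 0 t + coef al be w 1 t * L + coef al be w 2 t * L ^ 2 +
        coef al be w 3 t * L ^ 3 +
      (pt al be t t.p t.z 4 * ((ind t.p w - ind t.z w) * (pos al be L t.z - pos al be L t.p)⁻¹) -
        pt al be t t.z t.q 4 *
          ((ind t.z w - ind t.q w) * (pos al be L t.q - pos al be L t.z)⁻¹)) := by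
  have e : ∀ (a b : ℕ) (x : ℚ), (if a = w ∨ b = w then (ind a w - ind b w) * x else 0) =
      (ind a w - ind b w) * x := by
    intro a b x
    split_ifs with h
    · rfl
    · push Not at h
      simp [ind, h.1, h.2]
  simp only [coef, e]
  have e1 := pt_eq al be t _ _ L h1
  have e2 := pt_eq al be t _ _ L h2
  simp only [kap]
  push_cast [ind_cast]
  simp only [cnt] at e1 e2 ⊢
  norm_num
  linear_combination (ind t.p w - ind t.z w) * e1 + (ind t.q w - ind t.z w) * e2

lemma res_sum (al be : ℕ → ℚ) (n : ℕ) (t : Ty) (h : t.Ord n) (φ : ℕ → ℕ → ℝ) :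
    pt al be t t.p t.z 4 * φ t.p t.z - pt al be t t.z t.q 4 * φ t.z t.q =
      ∑ a ∈ Finset.range (n + 1), ∑ b ∈ Finset.range (n + 1), res al be a b t * φ a b := by
  have hp : t.p < n + 1 := by rcases h with h | h | h <;> omega
  have hz : t.z < n + 1 := by rcases h with h | h | h <;> omega
  have hq : t.q < n + 1 := by rcases h with h | h | h <;> omega
  simp only [res, Rat.cast_sub, sub_mul, Finset.sum_sub_distrib, apply_ite (Rat.cast : ℚ → ℝ),
    ite_mul, ite_and, Rat.cast_zero, zero_mul, Finset.sum_ite_irrel, Finset.sum_const_zero,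
    Finset.sum_ite_eq, Finset.mem_range, hp, hz, hq, if_true]

/-- The kink equations hold for every width. -/
lemma eqk_of (al be : ℕ → ℚ) (n : ℕ) (D : List Ty) (hD : ∀ t ∈ D, t.Ord n) (L : ℝ)
    (hX : ∀ a b, a < b → b ≤ n → pos al be L a < pos al be L b)
    (hres : ∀ a < n + 1, ∀ b < n + 1, tot D (res al be a b) = 0) (w : ℕ) (c : ℚ)
    (h0 : tot D (coef al be w 0) = c) (h1 : tot D (coef al be w 1) = 0)
    (h2 : tot D (coef al be w 2) = 0) (h3 : tot D (coef al be w 3) = 0) :
    ∑ u : Fin D.length, cnt L D[u.1] * kap (pos al be L) D[u.1] w = c := by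
  have e : ∀ u : Fin D.length, cnt L D[u.1] * kap (pos al be L) D[u.1] w =
      coef al be w 0 D[u.1] + coef al be w 1 D[u.1] * L + coef al be w 2 D[u.1] * L ^ 2 +
        coef al be w 3 D[u.1] * L ^ 3 + ∑ a ∈ Finset.range (n + 1), ∑ b ∈ Finset.range (n + 1),
          res al be a b D[u.1] * ((ind a w - ind b w) * (pos al be L b - pos al be L a)⁻¹) := by
    intro u
    have ho := hD _ (List.getElem_mem u.2)
    rw [← res_sum al be n _ ho
      (fun a b => (ind a w - ind b w) * (pos al be L b - pos al be L a)⁻¹)]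
    refine kap_pf al be _ w L (fun h => ?_) fun h => ?_
    · rcases ho with k | k | k
      · omega
      · omega
      · exact (sub_pos.2 (hX _ _ k.1 (by omega))).ne'
    · rcases ho with k | k | k
      · omega
      · omega
      · exact (sub_pos.2 (hX _ _ k.2.1 k.2.2)).ne'
  simp only [e, Finset.sum_add_distrib, ← Finset.sum_mul, ← tot_cast, h0, h1, h2, h3]
  rw [Finset.sum_comm, Finset.sum_eq_zero]
  · simp
  · intro a ha
    rw [Finset.sum_comm]
    refine Finset.sum_eq_zero fun b hb => ?_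
    rw [← Finset.sum_mul, ← tot_cast, hres a (Finset.mem_range.1 ha) b (Finset.mem_range.1 hb)]
    simp

lemma eq0_of (al be : ℕ → ℚ) (D : List Ty) (L : ℝ)
    (h0 : tot D (coef0 al be 0) = 0) (h1 : tot D (coef0 al be 1) = 1)
    (h2 : tot D (coef0 al be 2) = 0) (h3 : tot D (coef0 al be 3) = 0) :
    ∑ u : Fin D.length, cnt L D[u.1] * a0 (pos al be L) D[u.1] = L := by
  have e : ∀ t : Ty, cnt L t * a0 (pos al be L) t = coef0 al be 0 t + coef0 al be 1 t * L +
      coef0 al be 2 t * L ^ 2 + coef0 al be 3 t * L ^ 3 := by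
    intro t
    by_cases h : t.p = 0
    · simp [coef0, a0, h, cnt, pos]
      ring
    · simp [coef0, a0, h]
  simp only [e, Finset.sum_add_distrib, ← Finset.sum_mul, ← tot_cast, h0, h1, h2, h3]
  simp

lemma pos_cast (al be : ℕ → ℚ) (L : ℚ) (w : ℕ) :
    ((pos al be L w : ℚ) : ℝ) = pos al be (L : ℝ) w := by simp [pos]

lemma cnt_cast (L : ℚ) (t : Ty) : ((cnt L t : ℚ) : ℝ) = cnt (L : ℝ) t := by simp [cnt]

lemma kap_cast (al be : ℕ → ℚ) (L : ℚ) (t : Ty) (w : ℕ) :
    ((kap (pos al be L) t w : ℚ) : ℝ) = kap (pos al be (L : ℝ)) t w := by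
  simp only [kap]
  push_cast [ind_cast, pos_cast]
  rfl

lemma pos_cont (al be : ℕ → ℚ) (w : ℕ) : Continuous fun L : ℝ => pos al be L w := by
  unfold pos; fun_prop

lemma cnt_cont (t : Ty) : Continuous fun L : ℝ => cnt L t := by
  unfold cnt; fun_prop

lemma kap_cont (al be : ℕ → ℚ) (n : ℕ) (t : Ty) (ho : t.Ord n) (w : ℕ) (L : ℝ)
    (hX : ∀ a b, a < b → b ≤ n → pos al be L a < pos al be L b) :
    ContinuousAt (fun L : ℝ => kap (pos al be L) t w) L := by
  have e : ∀ a b, (a = b ∨ (a < b ∧ b ≤ n)) →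
      ContinuousAt (fun L : ℝ => (pos al be L b - pos al be L a)⁻¹) L := by
    rintro a b (h | h)
    · simp only [h, sub_self]; exact continuousAt_const
    · exact ((pos_cont al be b).sub (pos_cont al be a)).continuousAt.inv₀
        (sub_pos.2 (hX _ _ h.1 h.2)).ne'
  have e1 := e t.p t.z (by rcases ho with h | h | h <;> omega)
  have e2 := e t.z t.q (by rcases ho with h | h | h <;> omega)
  have e3 := ((pos_cont al be t.q).sub (pos_cont al be t.p)).continuousAt (x := L)
  exact (continuousAt_const.add (continuousAt_const.mul (e3.mul e1))).add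
    (continuousAt_const.mul (e3.mul e2))

end Pool.Agent.P.MP_8707bd_ag.All
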