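import Mathlib
import Pool.Agent.P.MP_8707bd_ag.All.Design
import Pool.Agent.P.MP_8707bd_ag.All.Frac

/-!
From the finite rational check to all large numbers of points (helper file only).
-/

namespace Pool.Agent.P.MP_8707bd_ag.All

open Filter Topology

set_option synthInstance.maxSize 4096

/-- The tree and the levels. -/
def ChkTree (n s P : ℕ) (par lev rl : ℕ → ℕ) : Prop :=
  0 < n ∧ 0 < s ∧ par 0 = 0 ∧
  (∀ k < s, 0 < k → par k < k ∧ par (par k) = 0 ∧ 2 ≤ lev k ∧ lev k < P + 2 ∧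
    (par k = 0 ∨ lev k < lev (par k)) ∧ ∀ w < n, 0 < w → lev k ≠ rl w) ∧
  ∀ w < n, 0 < w → 2 ≤ rl w ∧ rl w < P + 2

/-- The nodes. -/
def ChkNode (n j : ℕ) (al be : ℕ → ℚ) (L : ℚ) : Prop :=
  0 < L ∧ al 0 = 0 ∧ be 0 = 0 ∧ al n = -j ∧ be n = 1 ∧
    ∀ b < n + 1, ∀ a < b, pos al be L a < pos al be L b

/-- The shape of a group. -/
def ChkShape (n : ℕ) (al be : ℕ → ℚ) (t : Ty) : Prop :=
  ((t.p = 0 ∧ t.e1 = 0 ∧ (al t.e2 = t.mu ∧ be t.e2 = 0) ∧ t.q ≤ t.e2 ∧ t.e2 ≤ n) ∨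
    (t.p ≠ 0 ∧ t.q = n ∧ t.e2 = n ∧ (al t.e1 = al n - t.mu ∧ be t.e1 = be n) ∧ t.e1 ≤ t.p) ∨
    (t.p ≠ 0 ∧ t.p < t.q ∧ t.e1 = t.p ∧ t.e2 = t.q ∧
      (al t.q = al t.p + t.mu ∧ be t.q = be t.p))) ∧
  ((t.p = 0 ∧ t.z = 0 ∧ t.q = 0) ∨ (t.p = n ∧ t.z = n ∧ t.q = n) ∨
    (t.p < t.z ∧ t.z < t.q ∧ t.q ≤ n))

/-- The level of a group. -/
def ChkLevel (D : List Ty) (par lev rl : ℕ → ℕ) (t : Ty) : Prop :=
  t.p < t.z →
  ((∀ w < t.q, t.p < w → w ≠ t.z → rl t.z < rl w) ∧ (t.v = 0 ∨ rl t.z < lev t.v)) ∨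
  (t.v ≠ 0 ∧ (∀ w < t.q, t.p < w → lev t.v < rl w) ∧
    ∀ u ∈ D, (u.v = t.v ∨ par u.v = t.v) → ∀ w < t.q, t.p < w → w ≠ t.z →
      u.p ≠ w ∧ u.z ≠ w ∧ u.q ≠ w ∧ u.e1 ≠ w ∧ u.e2 ≠ w)

/-- The groups. -/
def ChkTy (n s M : ℕ) (par lev rl : ℕ → ℕ) (al be : ℕ → ℚ) (L : ℚ) (D : List Ty) : Prop :=
  ∀ t ∈ D, t.v < s ∧ ChkShape n al be t ∧ ChkLevel D par lev rl t ∧ 0 < cnt L t ∧
    (t.A * M).den = 1

/-- The kinks used by the groups in the branches are positive. -/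
def ChkSup (n s : ℕ) (par lev rl : ℕ → ℕ) (al be : ℕ → ℚ) (L : ℚ) (D : List Ty) : Prop :=
  ∀ k < s, 0 < k → ∀ w < n, 0 < w → lev k < rl w →
    (∀ t ∈ D, (t.v = k ∨ par t.v = k) → t.z ≠ w) ∨
      0 < tot D fun t => if t.v = k ∨ par t.v = k then cnt L t * kap (pos al be L) t w else 0

/-- The residues vanish. -/
def ChkRes (n : ℕ) (al be : ℕ → ℚ) (D : List Ty) : Prop :=
  ∀ a < n + 1, ∀ b < n + 1, tot D (res al be a b) = 0

/-- The polynomial parts balance. -/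
def ChkPol (n j : ℕ) (al be : ℕ → ℚ) (D : List Ty) : Prop :=
  (∀ w < n, tot D (coef al be w 0) = (if w = 0 then -1 else 0) ∧ tot D (coef al be w 1) = 0 ∧
    tot D (coef al be w 2) = 0 ∧ tot D (coef al be w 3) = 0) ∧
  tot D (coef0 al be 0) = 0 ∧ tot D (coef0 al be 1) = 1 ∧ tot D (coef0 al be 2) = 0 ∧
  tot D (coef0 al be 3) = 0 ∧ tot D (fun t => t.A * t.mu ^ 2) = -j ^ 2 ∧
  tot D (fun t => (t.B : ℚ) * t.mu ^ 2) = 1

instance (n s P : ℕ) (par lev rl : ℕ → ℕ) : Decidable (ChkTree n s P par lev rl) := by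
  unfold ChkTree; infer_instance
instance (n j : ℕ) (al be : ℕ → ℚ) (L : ℚ) : Decidable (ChkNode n j al be L) := by
  unfold ChkNode; infer_instance
instance (n : ℕ) (al be : ℕ → ℚ) (t : Ty) : Decidable (ChkShape n al be t) := by
  unfold ChkShape; infer_instance
instance (D : List Ty) (par lev rl : ℕ → ℕ) (t : Ty) : Decidable (ChkLevel D par lev rl t) := by
  unfold ChkLevel; infer_instance
instance (n s M : ℕ) (par lev rl : ℕ → ℕ) (al be : ℕ → ℚ) (L : ℚ) (D : List Ty) :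
    Decidable (ChkTy n s M par lev rl al be L D) := by
  unfold ChkTy; infer_instance
instance (n s : ℕ) (par lev rl : ℕ → ℕ) (al be : ℕ → ℚ) (L : ℚ) (D : List Ty) :
    Decidable (ChkSup n s par lev rl al be L D) := by
  unfold ChkSup; infer_instance
instance (n : ℕ) (al be : ℕ → ℚ) (D : List Ty) : Decidable (ChkRes n al be D) := by
  unfold ChkRes; infer_instance
instance (n j : ℕ) (al be : ℕ → ℚ) (D : List Ty) : Decidable (ChkPol n j al be D) := by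
  unfold ChkPol; infer_instance

lemma width_tendsto (M : ℕ) (hM : 0 < M) (L : ℝ) (hL : 0 < L) :
    Tendsto (fun r : ℕ => √(r : ℝ) / ((M * ⌊√(r : ℝ) / (M * L)⌋₊ : ℕ) : ℝ)) atTop (𝓝 L) ∧
      ∀ᶠ r : ℕ in atTop, 0 < ⌊√(r : ℝ) / (M * L)⌋₊ := by
  have hM' : (0 : ℝ) < M := by exact_mod_cast hM
  have h1 : Tendsto (fun r : ℕ => √(r : ℝ) / (M * L)) atTop atTop :=
    (Real.tendsto_sqrt_atTop.comp tendsto_natCast_atTop_atTop).atTop_div_const (by positivity)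
  have h2 := ((tendsto_nat_floor_div_atTop (R := ℝ)).comp h1).inv₀ one_ne_zero
  refine ⟨?_, (h1.eventually_ge_atTop 1).mono fun r hr => Nat.floor_pos.2 hr⟩
  have h3 := h2.const_mul L
  rw [inv_one, mul_one] at h3
  refine h3.congr fun r => ?_
  simp only [Function.comp, inv_div]
  push_cast
  by_cases h : ((⌊√(r : ℝ) / (M * L)⌋₊ : ℕ) : ℝ) = 0
  · simp [h]
  · field_simp

theorem of_check (n s P j M : ℕ) (hM : 0 < M) (par lev rl : ℕ → ℕ) (al be : ℕ → ℚ) (L0 : ℚ)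
    (D : List Ty) (c1 : ChkTree n s P par lev rl) (c2 : ChkNode n j al be L0)
    (c3 : ChkTy n s M par lev rl al be L0 D) (c4 : ChkSup n s par lev rl al be L0 D)
    (c5 : ChkRes n al be D) (c6 : ChkPol n j al be D) :
    ∃ r0 : ℕ, ∀ r, r0 ≤ r → ∀ m d : ℕ, d ^ 2 < r * m ^ 2 →
      ∃ Φ : MvPolynomial (Fin r × Fin 3) ℂ, Φ ≠ 0 ∧ ∀ p : Fin r → Fin 3 → ℂ,
        MvPolynomial.eval (fun ij : Fin r × Fin 3 => p ij.1 ij.2) Φ ≠ 0 →
        fat p (fun _ => m) d = ⊥ := by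
  obtain ⟨t1, t2, t3, t4, t5⟩ := c1
  have T : Tree n s P par lev rl := ⟨t1, t2, t3, fun k a b => by
    obtain ⟨h1, h2, h3, h4, h5, h6⟩ := t4 k b a
    exact ⟨h1, h2, h3, h4, h5, fun w a b => h6 w b a⟩, fun w a b => t5 w b a⟩
  obtain ⟨n0, n1, n2, n3, n4, n5⟩ := c2
  obtain ⟨p1, p2, p3, p4, p5, p6, p7⟩ := c6
  have hO : ∀ t ∈ D, t.Ord n := fun t ht => (c3 t ht).2.1.2
  have hX0 : ∀ a b, a < b → b ≤ n → pos al be (L0 : ℝ) a < pos al be (L0 : ℝ) b := by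
    intro a b h1 h2
    rw [← pos_cast, ← pos_cast, Rat.cast_lt]
    exact n5 b (by omega) a h1
  set ty : Fin D.length → Ty := fun u => D[u.1] with hty
  have hmem : ∀ u, ty u ∈ D := fun u => List.getElem_mem u.2
  have e1 : ∀ᶠ L in 𝓝 (L0 : ℝ), ∀ ab : Fin (n + 1) × Fin (n + 1), (ab.1 : ℕ) < ab.2 →
      pos al be L ab.1 < pos al be L ab.2 := by
    refine eventually_all.2 fun ab => eventually_imp_distrib_left.2 fun h => ?_
    exact (pos_cont al be _).continuousAt.eventually_lt (pos_cont al be _).continuousAt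
      (hX0 _ _ h (by have := ab.2.2; omega))
  have e2 : ∀ᶠ L in 𝓝 (L0 : ℝ), ∀ u, 0 < cnt L (ty u) := by
    refine eventually_all.2 fun u => ?_
    refine continuousAt_const.eventually_lt (cnt_cont _).continuousAt ?_
    rw [← cnt_cast]
    exact_mod_cast (c3 _ (hmem u)).2.2.2.1
  have e3 : ∀ᶠ L in 𝓝 (L0 : ℝ), ∀ kw : Fin s × Fin n,
      0 < below ty par (fun u => cnt (L0 : ℝ) (ty u) * kap (pos al be (L0 : ℝ)) (ty u) kw.2) kw.1 →
      0 < below ty par (fun u => cnt L (ty u) * kap (pos al be L) (ty u) kw.2) kw.1 := by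
    refine eventually_all.2 fun kw => eventually_imp_distrib_left.2 fun h => ?_
    refine continuousAt_const.eventually_lt ?_ h
    refine tendsto_finsetSum _ fun u _ => ?_
    split_ifs
    · exact (cnt_cont _).continuousAt.mul (kap_cont al be n _ (hO _ (hmem u)) _ _ hX0)
    · exact tendsto_const_nhds
  obtain ⟨w1, w2⟩ := width_tendsto M hM L0 (by exact_mod_cast n0)
  obtain ⟨r0, hr0⟩ := eventually_atTop.1 ((w1.eventually (e1.and (e2.and e3))).and w2)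
  refine ⟨r0, fun r hr m d hd => ?_⟩
  obtain ⟨⟨f1, f2, f3⟩, f4⟩ := hr0 r hr
  set y : ℕ := ⌊√(r : ℝ) / (M * (L0 : ℝ))⌋₊
  set δ : ℕ := M * y with hδ
  have hδ0 : 0 < δ := Nat.mul_pos hM f4
  have hδ' : (0 : ℝ) < δ := by exact_mod_cast hδ0
  set L : ℝ := √(r : ℝ) / δ with hL
  have hr2 : (r : ℝ) = δ ^ 2 * L ^ 2 := by
    rw [hL, div_pow, Real.sq_sqrt (Nat.cast_nonneg r)]; field_simp
  have hX : ∀ a b, a < b → b ≤ n → pos al be L a < pos al be L b := fun a b h1 h2 =>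
    f1 (⟨a, by omega⟩, ⟨b, by omega⟩) h1
  have hN : ∀ u, ∃ N : ℕ, (N : ℝ) = δ ^ 2 * cnt L (ty u) := by
    intro u
    have h1 : ((((ty u).A * M).num : ℚ)) = (ty u).A * M :=
      (Rat.den_eq_one_iff _).1 (c3 _ (hmem u)).2.2.2.2
    have h2 : ((((ty u).A * M).num : ℝ)) = (ty u).A * M := by exact_mod_cast h1
    have h3 : ((((ty u).A * M).num * M * y ^ 2 + (ty u).B * r : ℤ) : ℝ) =
        δ ^ 2 * cnt L (ty u) := by
      rw [Int.cast_add, Int.cast_mul, Int.cast_mul, Int.cast_mul, h2, cnt]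
      push_cast
      rw [hr2, hδ]
      push_cast
      ring
    have h4 : 0 ≤ (((ty u).A * M).num * M * y ^ 2 + (ty u).B * r : ℤ) := by
      have : (0 : ℝ) ≤ δ ^ 2 * cnt L (ty u) := mul_nonneg (by positivity) (f2 u).le
      rw [← h3] at this
      exact_mod_cast this
    obtain ⟨N, hN⟩ := Int.eq_ofNat_of_zero_le h4
    exact ⟨N, by rw [← h3, hN]; simp⟩
  choose N hN using hN
  have hn : pos al be L n + j = L := by simp [pos, n3, n4]
  refine design (ty := ty) T (pos al be L) (by simp [pos, n1, n2]) hX N j δ hδ0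
    (fun u => (c3 _ (hmem u)).1) (fun u => ?_) (fun u => hO _ (hmem u)) (fun u a1 _ => ?_)
    (fun k k0 ks w w0 wn h => ?_) (fun w wn => ?_) ?_ r ?_ m d ?_
  · rcases (c3 _ (hmem u)).2.1.1 with ⟨a, b, c, d⟩ | ⟨a, b, c, d, e⟩ | ⟨a, b, c, d, e⟩
    · exact Or.inl ⟨a, b, by simp [pos, c.1, c.2], d⟩
    · exact Or.inr (Or.inl ⟨a, b, c, by simp only [pos, d.1, d.2]; push_cast; ring, e⟩)
    · exact Or.inr (Or.inr ⟨a, b, c, d, by simp only [pos, e.1, e.2]; push_cast; ring⟩)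
  · rcases (c3 _ (hmem u)).2.2.1 a1 with ⟨a, b⟩ | ⟨a, b, c⟩
    · exact Or.inl ⟨fun w h1 h2 => a w h2 h1, b⟩
    · exact Or.inr ⟨a, fun w h1 h2 => b w h2 h1,
        fun w h1 h2 h3 u' h4 => c _ (hmem u') h4 w h2 h1 h3⟩
  · rcases c4 k ks k0 w wn w0 h with h1 | h1
    · exact Or.inl fun u hu => h1 _ (hmem u) hu
    · right
      have h2 := f3 (⟨k, ks⟩, ⟨w, wn⟩) (by
        have h3 : ((0 : ℚ) : ℝ) < _ := Rat.cast_lt.2 h1
        rw [tot_cast, Rat.cast_zero] at h3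
        refine h3.trans_eq (Finset.sum_congr rfl fun u _ => ?_)
        split_ifs
        · rw [Rat.cast_mul, cnt_cast, kap_cast]
        · simp)
      refine (mul_pos (pow_pos hδ' 2) h2).trans_eq ?_
      simp only [below, Finset.mul_sum, hN, mul_ite, mul_zero, mul_assoc]
  · obtain ⟨q0, q1, q2, q3⟩ := p1 w wn
    have := eqk_of al be n D hO L hX c5 w _ q0 q1 q2 q3
    simp only [hN, mul_assoc, ← Finset.mul_sum]
    rw [this]
    split_ifs <;> simp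
  · simp only [hN, mul_assoc, ← Finset.mul_sum]
    rw [hn, eq0_of al be D L p2 p3 p4 p5]
  · have h1 := congrArg (Rat.cast : ℚ → ℝ) p6
    have h2 := congrArg (Rat.cast : ℚ → ℝ) p7
    rw [tot_cast] at h1 h2
    push_cast at h1 h2
    have h3 : (r : ℝ) = δ ^ 2 * j ^ 2 + ∑ u, (N u : ℝ) * (ty u).mu ^ 2 := by
      have h4 : ∀ u, (N u : ℝ) * (ty u).mu ^ 2 = δ ^ 2 * ((ty u).A * (ty u).mu ^ 2) +
          δ ^ 2 * L ^ 2 * ((ty u).B * (ty u).mu ^ 2) := fun u => by rw [hN, cnt]; ring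
      simp only [h4, Finset.sum_add_distrib, ← Finset.mul_sum]
      rw [h1, h2, hr2]
      ring
    exact_mod_cast h3
  · rw [hn]
    have h1 : (d : ℝ) ^ 2 < (δ * L * m) ^ 2 := by
      rw [mul_pow, mul_pow, ← hr2]; exact_mod_cast hd
    exact lt_of_pow_lt_pow_left₀ 2 (by positivity) h1

end Pool.Agent.P.MP_8707bd_ag.All
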